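import Mathlib
import Pool.Agent.Helper17.FF.Tensor

/-!
# Extension of the field of constants of a function field
-/

set_option autoImplicit false

namespace CX.BC

open scoped TensorProduct

/-- The field `B` is generated by the images of `E` and `Ω`, which are linearly disjoint
over `O`: if `E` is the function field of a variety over `O` then `B` is the function field of this
variety over `Ω`. -/
structure IsConst (O Ω E B : Type) [Field O] [Field Ω] [Field E] [Field B] [Algebra O Ω]
    [Algebra O E] [Algebra Ω B] (i : E →+* B) : Prop where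
  comm : ∀ a : O, i (algebraMap O E a) = algebraMap Ω B (algebraMap O Ω a)
  gen : IntermediateField.adjoin Ω (Set.range i) = ⊤
  disj : ∀ (ι : Type) (v : ι → E), LinearIndependent O v → LinearIndependent Ω fun j => i (v j)

theorem exists_const (O Ω E : Type) [Field O] [IsAlgClosed O] [Field Ω] [Field E] [Algebra O Ω]
    [Algebra O E] :
    ∃ (B : Type) (_ : Field B) (_ : Algebra Ω B) (i : E →+* B), IsConst O Ω E B i ∧
      ∀ σ : E ≃ₐ[O] E, ∃ σ' : B ≃ₐ[Ω] B, ∀ z, σ' (i z) = i (σ z) := by
  have hdom : IsDomain (Ω ⊗[O] E) := _root_.FF.isDomain_tensor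
  let B := FractionRing (Ω ⊗[O] E)
  let i : E →+* B := (algebraMap (Ω ⊗[O] E) B).comp
    (Algebra.TensorProduct.includeRight : E →ₐ[O] Ω ⊗[O] E).toRingHom
  have hi : ∀ z, i z = algebraMap (Ω ⊗[O] E) B (1 ⊗ₜ z) := fun _ => rfl
  have hinj : Function.Injective (algebraMap (Ω ⊗[O] E) B) := IsFractionRing.injective _ _
  refine ⟨B, inferInstance, inferInstance, i, ⟨?_, ?_, ?_⟩, ?_⟩
  · intro a
    rw [hi, IsScalarTower.algebraMap_apply Ω (Ω ⊗[O] E) B]
    congr 1
    rw [Algebra.TensorProduct.algebraMap_apply]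
    change (1 : Ω) ⊗ₜ[O] algebraMap O E a = algebraMap O Ω a ⊗ₜ[O] 1
    rw [Algebra.algebraMap_eq_smul_one, Algebra.algebraMap_eq_smul_one, TensorProduct.tmul_smul,
      TensorProduct.smul_tmul']
  · rw [eq_top_iff]
    intro x _
    obtain ⟨p, q, hq, rfl⟩ := IsFractionRing.div_surjective (A := Ω ⊗[O] E) x
    have key : ∀ p : Ω ⊗[O] E, algebraMap (Ω ⊗[O] E) B p ∈
        IntermediateField.adjoin Ω (Set.range i) := by
      intro p
      induction p using TensorProduct.induction_on with
      | zero => rw [map_zero]; exact zero_mem _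
      | add x y hx hy => rw [map_add]; exact add_mem hx hy
      | tmul a z =>
        have e : algebraMap (Ω ⊗[O] E) B (a ⊗ₜ z) = algebraMap Ω B a * i z := by
          rw [hi, IsScalarTower.algebraMap_apply Ω (Ω ⊗[O] E) B, ← map_mul]
          congr 1
          rw [Algebra.TensorProduct.algebraMap_apply]
          change a ⊗ₜ[O] z = a ⊗ₜ[O] (1 : E) * (1 : Ω) ⊗ₜ[O] z
          rw [Algebra.TensorProduct.tmul_mul_tmul, mul_one, one_mul]
        rw [e]
        exact mul_mem (IntermediateField.algebraMap_mem _ _)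
          (IntermediateField.subset_adjoin _ _ ⟨z, rfl⟩)
    exact div_mem (key p) (key q)
  · intro ι v hv
    let I : Set E := hv.linearIndepOn_id.extend (Set.subset_univ _)
    let b : Module.Basis I O E := .extend hv.linearIndepOn_id
    let b' : Module.Basis I Ω (Ω ⊗[O] E) := Algebra.TensorProduct.basis Ω b
    let v' (j : ι) : I := ⟨v j, hv.linearIndepOn_id.subset_extend _ <| Set.mem_range_self j⟩
    have hv' : b' ∘ v' = fun j => (1 : Ω) ⊗ₜ[O] v j := by
      ext j
      simp [b', b, v', Module.Basis.extend]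
    have h_inj : Function.Injective v' := fun j l hjl => by
      have h1 : Function.Injective v := hv.injective
      apply h1
      exact congrArg Subtype.val hjl
    have h2 : LinearIndependent Ω fun j => (1 : Ω) ⊗ₜ[O] v j := by
      rw [← hv']
      exact b'.linearIndependent.comp _ h_inj
    exact h2.map' (IsScalarTower.toAlgHom Ω (Ω ⊗[O] E) B).toLinearMap
      (LinearMap.ker_eq_bot.mpr hinj)
  · intro σ
    let f : Ω ⊗[O] E ≃ₐ[Ω] Ω ⊗[O] E := Algebra.TensorProduct.congr AlgEquiv.refl σ
    refine ⟨IsFractionRing.algEquivOfAlgEquiv f, fun z => ?_⟩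
    rw [hi, hi]
    have e := IsFractionRing.ringEquivOfRingEquiv_algebraMap (K := B) (L := B) f.toRingEquiv (1 ⊗ₜ z)
    exact e

end CX.BC
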