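import Mathlib
import Pool.Agent.Helper40.CX.BC.Field
import Pool.Agent.Helper40.CX.H26VC.Defs

/-!
# Extension of the field of constants: transcendental elements, generators
-/

set_option autoImplicit false

namespace CX.BC

open IntermediateField

section

variable {O Ω E B : Type} [Field O] [Field Ω] [Field E] [Field B] [Algebra O Ω]
  [Algebra O E] [Algebra Ω B] {i : E →+* B}

theorem IsConst.algInd (hi : IsConst O Ω E B i) {ι : Type} {x : ι → E}
    (hx : AlgebraicIndependent O x) : AlgebraicIndependent Ω fun j => i (x j) := by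
  have h1 : LinearIndependent O fun m => MvPolynomial.aeval x (MvPolynomial.monomial m (1 : O)) := by
    have h := (MvPolynomial.basisMonomials ι O).linearIndependent.map'
      (MvPolynomial.aeval x : MvPolynomial ι O →ₐ[O] E).toLinearMap (by
        rw [LinearMap.ker_eq_bot]
        exact algebraicIndependent_iff_injective_aeval.mp hx)
    exact h
  have h2 := hi.disj _ _ h1
  have h3 : LinearIndependent Ω fun m =>
      MvPolynomial.aeval (fun j => i (x j)) (MvPolynomial.monomial m (1 : Ω)) := by
    convert h2 using 2 with m
    rw [MvPolynomial.aeval_monomial, MvPolynomial.aeval_monomial, map_one, map_one, one_mul,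
      one_mul, Finsupp.prod, Finsupp.prod, map_prod]
    apply Finset.prod_congr rfl
    intro j _
    rw [map_pow]
  rw [algebraicIndependent_iff_injective_aeval, injective_iff_map_eq_zero]
  intro p hp
  let b := MvPolynomial.basisMonomials ι Ω
  have h4 : Finsupp.linearCombination Ω (fun m =>
      MvPolynomial.aeval (fun j => i (x j)) (MvPolynomial.monomial m (1 : Ω))) (b.repr p) = 0 := by
    rw [← hp]
    conv_rhs => rw [← b.linearCombination_repr p]
    rw [← AlgHom.toLinearMap_apply, Finsupp.apply_linearCombination]
    congr 1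
  have h5 := linearIndependent_iff.mp h3 _ h4
  exact b.repr.map_eq_zero_iff.mp h5

theorem IsConst.transcendental (hi : IsConst O Ω E B i) {t : E} (ht : Transcendental O t) :
    Transcendental Ω (i t) := by
  have h := hi.algInd (ι := Unit) (x := fun _ => t) (algebraicIndependent_unique_type_iff.mpr ht)
  exact algebraicIndependent_unique_type_iff.mp h

theorem IsConst.adjoin_mem (hi : IsConst O Ω E B i) {S : Set E} {z : E} (hz : z ∈ adjoin O S) :
    i z ∈ adjoin Ω (i '' S) := by
  induction hz using adjoin_induction with
  | mem x hx => exact subset_adjoin _ _ ⟨x, hx, rfl⟩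
  | algebraMap a => rw [hi.comm]; exact IntermediateField.algebraMap_mem _ _
  | add x y _ _ hx hy => rw [map_add]; exact add_mem hx hy
  | inv x _ hx => rw [map_inv₀]; exact inv_mem hx
  | mul x y _ _ hx hy => rw [map_mul]; exact mul_mem hx hy

/-- The homomorphism of the fields generated by `t` and by `i t`. -/
noncomputable def IsConst.adj (hi : IsConst O Ω E B i) (t : E) :
    adjoin O {t} →+* adjoin Ω {i t} :=
  (i.comp (algebraMap (adjoin O {t}) E)).codRestrict (adjoin Ω {i t}) (fun z => by
    have h := hi.adjoin_mem z.2
    rwa [Set.image_singleton] at h)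

theorem IsConst.isAlgebraic (hi : IsConst O Ω E B i) {t z : E} (hz : IsAlgebraic (adjoin O {t}) z) :
    IsAlgebraic (adjoin Ω {i t}) (i z) :=
  hz.ringHom_of_comp_eq (hi.adj t) i (hi.adj t).injective rfl

theorem IsConst.span_top (hi : IsConst O Ω E B i) (t : E)
    (ht : ∀ z : E, IsAlgebraic (adjoin O {t}) z) :
    Submodule.span (adjoin Ω {i t}) (Set.range i) = ⊤ := by
  have h1 : adjoin (adjoin Ω {i t}) (Set.range i) = ⊤ := by
    rw [eq_top_iff]
    have h2 : adjoin Ω (Set.range i) ≤
        (adjoin (adjoin Ω {i t}) (Set.range i)).restrictScalars Ω := by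
      rw [adjoin_le_iff]
      exact fun z hz => subset_adjoin _ _ hz
    intro z _
    exact h2 (by rw [hi.gen]; trivial)
  have h2 := adjoin_toSubalgebra_of_isAlgebraic (F := adjoin Ω {i t}) (S := Set.range i) (by
    rintro _ ⟨z, rfl⟩
    exact hi.isAlgebraic (ht z))
  rw [h1, top_toSubalgebra] at h2
  have h3 := Algebra.adjoin_eq_span (R := adjoin Ω {i t}) (s := Set.range i)
  rw [← h2] at h3
  have h4 : (Submonoid.closure (Set.range i) : Set B) = Set.range i := by
    have : Set.range i = ((MonoidHom.mrange (i : E →* B) : Submonoid B) : Set B) := rfl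
    rw [this, Submonoid.closure_eq]
  rw [h4] at h3
  rw [← h3]
  rfl

theorem IsConst.functionField (hi : IsConst O Ω E B i) (h : VC.IsFunctionField O E) :
    VC.IsFunctionField Ω B := by
  obtain ⟨t, ht, hfin⟩ := h
  refine ⟨i t, hi.transcendental ht, ?_⟩
  have h1 := hi.span_top t fun z => Algebra.IsAlgebraic.isAlgebraic z
  obtain ⟨S, hS⟩ := Module.Finite.fg_top (R := adjoin O {t}) (M := E)
  classical
  have h2 : Submodule.span (adjoin Ω {i t}) (i '' (S : Set E)) = ⊤ := by
    rw [eq_top_iff, ← h1, Submodule.span_le]
    rintro _ ⟨z, rfl⟩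
    have hz : z ∈ Submodule.span (adjoin O {t}) (S : Set E) := by rw [hS]; trivial
    induction hz using Submodule.span_induction with
    | mem x hx => exact Submodule.subset_span ⟨x, hx, rfl⟩
    | zero => rw [map_zero]; exact zero_mem _
    | add x y _ _ hx hy => rw [map_add]; exact add_mem hx hy
    | smul a x _ hx =>
      have e : i (a • x) = hi.adj t a • i x := by
        rw [Algebra.smul_def, Algebra.smul_def, map_mul]
        rfl
      rw [e]
      exact Submodule.smul_mem _ _ hx
  refine ⟨⟨S.image i, ?_⟩⟩
  rw [Finset.coe_image]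
  exact h2

end

end CX.BC
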