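import Mathlib
import Pool.Agent.Helper40.CX.BC.Ind

/-!
# Extension of the field of constants: subfields and transcendental elements
-/

set_option autoImplicit false

namespace CX.BC

open IntermediateField

section

variable {O Ω L E B : Type} [Field O] [Field Ω] [Field L] [Field E] [Field B] [Algebra O Ω]
  [Algebra O L] [Algebra O E] [Algebra Ω B]

/-- The subfield generated by the image of a subfield. -/
noncomputable def cs (Ω : Type) [Field Ω] [Algebra Ω B] (i : E →+* B) (f : L →+* E) :
    IntermediateField Ω B :=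
  adjoin Ω (Set.range (i.comp f))

/-- The homomorphism from the subfield. -/
noncomputable def csm (Ω : Type) [Field Ω] [Algebra Ω B] (i : E →+* B) (f : L →+* E) :
    L →+* cs Ω i f :=
  (i.comp f).codRestrict (cs Ω i f) fun z => subset_adjoin _ _ ⟨z, rfl⟩

theorem csm_val (i : E →+* B) (f : L →+* E) (z : L) : ((csm Ω i f z : cs Ω i f) : B) = i (f z) := rfl

theorem IsConst.sub {i : E →+* B} (hi : IsConst O Ω E B i) (f : L →ₐ[O] E) :
    IsConst O Ω L (cs Ω i (f : L →+* E)) (csm Ω i (f : L →+* E)) := by
  refine ⟨?_, ?_, ?_⟩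
  · intro a
    apply Subtype.ext
    rw [csm_val]
    change i (f (algebraMap O L a)) = algebraMap Ω B (algebraMap O Ω a)
    rw [AlgHom.commutes, hi.comm]
  · rw [eq_top_iff]
    rintro ⟨z, hz⟩ -
    change z ∈ adjoin Ω (Set.range (i.comp (f : L →+* E))) at hz
    induction hz using adjoin_induction with
    | mem x hx =>
      obtain ⟨y, rfl⟩ := hx
      exact subset_adjoin _ _ ⟨y, rfl⟩
    | algebraMap a => exact IntermediateField.algebraMap_mem _ a
    | add x y hx' hy' hx hy => exact add_mem hx hy
    | inv x hx' hx => exact inv_mem hx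
    | mul x y hx' hy' hx hy => exact mul_mem hx hy
  · intro ι v hv
    have h1 : LinearIndependent O fun j => f (v j) :=
      hv.map' f.toLinearMap (LinearMap.ker_eq_bot.mpr f.toRingHom.injective)
    have h2 := hi.disj _ _ h1
    exact LinearIndependent.of_comp (cs Ω i (f : L →+* E)).val.toLinearMap h2

end

section

variable {O Ω L E B : Type} [Field O] [Field Ω] [Field L] [Field E] [Field B] [Algebra O Ω]
  [Algebra O L] [Algebra O E] [Algebra L E] [IsScalarTower O L E] [Algebra Ω B]

open scoped IntermediateField.algebraAdjoinAdjoin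

theorem algInd_of {t : L} {x : E} (ht : Transcendental O t) (hx : Transcendental L x) :
    AlgebraicIndependent O fun o : Option Unit => o.elim x fun _ => algebraMap L E t := by
  have h1 : AlgebraicIndependent O fun _ : Unit => algebraMap L E t :=
    algebraicIndependent_unique_type_iff.mpr
      ((transcendental_algebraMap_iff (algebraMap L E).injective).mpr ht)
  rw [h1.option_iff_transcendental]
  let g : L →ₐ[O] E := IsScalarTower.toAlgHom O L E
  have hle : Algebra.adjoin O (Set.range fun _ : Unit => algebraMap L E t) ≤ g.range := by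
    rw [Algebra.adjoin_le_iff]
    rintro _ ⟨_, rfl⟩
    exact ⟨t, rfl⟩
  let f : Algebra.adjoin O (Set.range fun _ : Unit => algebraMap L E t) →ₐ[O] L :=
    ((AlgEquiv.ofInjective g g.toRingHom.injective).symm : g.range →ₐ[O] L).comp
      (Subalgebra.inclusion hle)
  have hf : ∀ a, algebraMap L E (f a) = a := by
    intro a
    have h := (AlgEquiv.ofInjective g g.toRingHom.injective).apply_symm_apply
      (Subalgebra.inclusion hle a)
    have h2 := congrArg Subtype.val h
    exact h2
  refine Transcendental.of_ringHom_of_comp_eq (f : _ →+* L) (RingHom.id E) hx ?_ ?_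
  · intro a b hab
    apply Subtype.ext
    have := congrArg (algebraMap L E) hab
    change algebraMap L E (f a) = algebraMap L E (f b) at this
    rwa [hf, hf] at this
  · ext a
    exact hf a

theorem IsConst.trans_sub {i : E →+* B} (hi : IsConst O Ω E B i) {t : L} {x : E}
    (ht : Transcendental O t) (hx : Transcendental L x)
    (halg : ∀ z : L, IsAlgebraic (adjoin O {t}) z) :
    Transcendental (cs Ω i (algebraMap L E)) (i x) := by
  have h1 := hi.algInd (algInd_of ht hx)
  have e : (fun o : Option Unit => i (o.elim x fun _ => algebraMap L E t)) =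
      fun o => o.elim (i x) fun _ => i (algebraMap L E t) := by
    funext o
    cases o <;> rfl
  rw [e] at h1
  have h2 := AlgebraicIndependent.option_iff.mp h1
  have h3 : Set.range (fun _ : Unit => i (algebraMap L E t)) = {i (algebraMap L E t)} :=
    Set.range_const
  rw [h3] at h2
  intro h4
  apply h2.2
  have hj : IsConst O Ω L (cs Ω i (algebraMap L E)) (csm Ω i (algebraMap L E)) :=
    hi.sub (IsScalarTower.toAlgHom O L E)
  set L' := cs Ω i (algebraMap L E)
  set j := csm Ω i (algebraMap L E) with hjdef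
  have h5 : Algebra.IsAlgebraic (adjoin Ω {j t}) L' := by
    have hs := hj.span_top t halg
    refine ⟨fun z => ?_⟩
    have hz : z ∈ Submodule.span (adjoin Ω {j t}) (Set.range j) := by rw [hs]; trivial
    induction hz using Submodule.span_induction with
    | mem y hy =>
      obtain ⟨y, rfl⟩ := hy
      exact hj.isAlgebraic (halg y)
    | zero => exact isAlgebraic_zero
    | add a b _ _ ha hb => exact ha.add hb
    | smul c a _ ha =>
      rw [Algebra.smul_def]
      exact (isAlgebraic_algebraMap c).mul ha
  have h6 : IsAlgebraic (adjoin Ω {j t}) (i x) := h4.restrictScalars (adjoin Ω {j t})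
  let φ : adjoin Ω {j t} →+* adjoin Ω {i (algebraMap L E t)} :=
    (algebraMap (adjoin Ω {j t}) B).codRestrict (adjoin Ω {i (algebraMap L E t)}) (by
      intro z
      have h := adjoin_map Ω {j t} L'.val
      rw [Set.image_singleton] at h
      change ((z : L') : B) ∈ adjoin Ω {L'.val (j t)}
      rw [← h]
      exact ⟨z.1, z.2, rfl⟩)
  have h7 : IsAlgebraic (adjoin Ω {i (algebraMap L E t)}) (i x) :=
    h6.ringHom_of_comp_eq φ (RingHom.id B) φ.injective rfl
  exact (IsFractionRing.isAlgebraic_iff (Algebra.adjoin Ω {i (algebraMap L E t)})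
    (adjoin Ω {i (algebraMap L E t)}) B).mpr h7

end

section

variable {O Ω L L' B : Type} [Field O] [Field Ω] [Field L] [Field L'] [Field B] [Algebra O Ω]
  [Algebra O L] [Algebra Ω L'] [Algebra Ω B] [Algebra L' B] [IsScalarTower Ω L' B] {j : L →+* L'}

theorem isAlgebraic_of_fixed (t : L) (H : Subgroup (L ≃ₐ[O] L)) [Finite H]
    (hfix : ∀ z : L, (∀ τ ∈ H, τ z = z) → z ∈ adjoin O {t}) (z : L) :
    IsAlgebraic (adjoin O {t}) z := by
  have h1 : IsAlgebraic (FixedPoints.subfield H L) z := (FixedPoints.isIntegral H L z).isAlgebraic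
  let φ : FixedPoints.subfield H L →+* adjoin O {t} :=
    (algebraMap (FixedPoints.subfield H L) L).codRestrict (adjoin O {t}) (fun y =>
      hfix y.1 fun τ hτ => y.2 ⟨τ, hτ⟩)
  exact h1.ringHom_of_comp_eq φ (RingHom.id L) φ.injective rfl

/-- A function on the extended field fixed by the extended group is a function of `t`. -/
theorem IsConst.fixed (hj : IsConst O Ω L L' j) (t : L) (H : Subgroup (L ≃ₐ[O] L)) (hH : Finite H)
    (hfix : ∀ z : L, (∀ τ ∈ H, τ z = z) → z ∈ adjoin O {t}) (ht : ∀ τ ∈ H, τ t = t) (z : L')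
    (hz : ∀ τ ∈ H, ∃ σ : B ≃ₐ[Ω] B, (∀ y, σ (algebraMap L' B (j y)) = algebraMap L' B (j (τ y))) ∧
      σ (algebraMap L' B z) = algebraMap L' B z) : z ∈ adjoin Ω {j t} := by
  classical
  have hft : Fintype H := Fintype.ofFinite H
  choose! s hs1 hs2 using hz
  -- an element with trace different from zero
  obtain ⟨e, he⟩ : ∃ e : L, ∑ τ : H, (τ : L ≃ₐ[O] L) e ≠ 0 := by
    by_contra hcon
    push Not at hcon
    have h1 := linearIndependent_monoidHom L L
    let g : H → (L →* L) := fun τ => ((τ : L ≃ₐ[O] L) : L →* L)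
    have hg : Function.Injective g := by
      intro a b hab
      apply Subtype.ext
      ext y
      exact DFunLike.congr_fun hab y
    have h2 := h1.comp g hg
    have h3 := Fintype.linearIndependent_iff.mp h2 (fun _ => 1) (by
      funext y
      rw [Finset.sum_apply]
      simp only [one_smul]
      exact hcon y) 1
    exact one_ne_zero h3
  -- the elements of the field generated by `t` are fixed
  have hc : ∀ τ ∈ H, ∀ c : adjoin Ω {j t}, s τ (algebraMap L' B c.1) = algebraMap L' B c.1 := by
    intro τ hτ c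
    obtain ⟨c, hc⟩ := c
    change s τ (algebraMap L' B c) = algebraMap L' B c
    induction hc using adjoin_induction with
    | mem x hx =>
      rw [Set.mem_singleton_iff] at hx
      rw [hx, hs1 τ hτ, ht τ hτ]
    | algebraMap a => rw [← IsScalarTower.algebraMap_apply, AlgEquiv.commutes]
    | add x y _ _ hx hy => rw [map_add, map_add, hx, hy]
    | inv x _ hx => rw [map_inv₀, map_inv₀, hx]
    | mul x y _ _ hx hy => rw [map_mul, map_mul, hx, hy]
  have key : ∀ w : L', ∃ c ∈ adjoin Ω {j t},
      ∑ τ : H, s τ (algebraMap L' B (w * j e)) = algebraMap L' B c := by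
    intro w
    have hw : w ∈ Submodule.span (adjoin Ω {j t}) (Set.range j) := by
      rw [hj.span_top t (isAlgebraic_of_fixed t H hfix)]
      trivial
    induction hw using Submodule.span_induction with
    | mem x hx =>
      obtain ⟨y, rfl⟩ := hx
      have h1 : ∑ τ : H, (τ : L ≃ₐ[O] L) (y * e) ∈ adjoin O {t} := by
        apply hfix
        intro τ hτ
        rw [map_sum]
        exact Fintype.sum_equiv (Equiv.mulLeft (⟨τ, hτ⟩ : H)) _ _ fun σ => rfl
      refine ⟨j (∑ τ : H, (τ : L ≃ₐ[O] L) (y * e)), ?_, ?_⟩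
      · have := hj.adjoin_mem h1
        rwa [Set.image_singleton] at this
      · rw [map_sum, map_sum]
        apply Finset.sum_congr rfl
        intro τ _
        rw [← map_mul, hs1 τ τ.2]
    | zero => exact ⟨0, zero_mem _, by simp⟩
    | add x y _ _ hx hy =>
      obtain ⟨a, ha, h1⟩ := hx
      obtain ⟨b, hb, h2⟩ := hy
      refine ⟨a + b, add_mem ha hb, ?_⟩
      rw [map_add, ← h1, ← h2, ← Finset.sum_add_distrib]
      apply Finset.sum_congr rfl
      intro τ _
      rw [add_mul, map_add, map_add]
    | smul c x _ hx =>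
      obtain ⟨a, ha, h1⟩ := hx
      refine ⟨c.1 * a, mul_mem c.2 ha, ?_⟩
      have e1 : algebraMap L' B (c.1 * a) = algebraMap L' B c.1 * algebraMap L' B a :=
        map_mul _ _ _
      rw [e1, ← h1, Finset.mul_sum]
      apply Finset.sum_congr rfl
      intro τ _
      have e2 : c • x * j e = c.1 * (x * j e) := by
        rw [Algebra.smul_def, mul_assoc]
        rfl
      rw [e2, map_mul, map_mul, hc τ τ.2 c]
  obtain ⟨c, hcm, h1⟩ := key z
  have h2 : ∑ τ : H, s τ (algebraMap L' B (z * j e)) =
      algebraMap L' B (z * j (∑ τ : H, (τ : L ≃ₐ[O] L) e)) := by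
    rw [map_sum, Finset.mul_sum, map_sum]
    apply Finset.sum_congr rfl
    intro τ _
    rw [map_mul, map_mul, map_mul, hs2 τ τ.2, hs1 τ τ.2]
  have h3 : z * j (∑ τ : H, (τ : L ≃ₐ[O] L) e) = c := by
    apply (algebraMap L' B).injective
    rw [← h2, h1]
  have h4 : j (∑ τ : H, (τ : L ≃ₐ[O] L) e) ∈ adjoin Ω {j t} := by
    have h1 : ∑ τ : H, (τ : L ≃ₐ[O] L) e ∈ adjoin O {t} := by
      apply hfix
      intro τ hτ
      rw [map_sum]
      exact Fintype.sum_equiv (Equiv.mulLeft (⟨τ, hτ⟩ : H)) _ _ fun σ => rfl
    have := hj.adjoin_mem h1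
    rwa [Set.image_singleton] at this
  have h5 : j (∑ τ : H, (τ : L ≃ₐ[O] L) e) ≠ 0 := (map_ne_zero j).mpr he
  have h6 : z = c / j (∑ τ : H, (τ : L ≃ₐ[O] L) e) := by
    rw [eq_div_iff h5, h3]
  rw [h6]
  exact div_mem hcm h4

end

end CX.BC
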