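import Mathlib
import Pool.Agent.Helper40.CX.BC.Sub
import Pool.Agent.Helper40.CX.H21TO.Final

/-!
# Extension of the field of constants: torsors
-/

set_option autoImplicit false

namespace CX.BC

open IntermediateField CX.Pool.Agent.Helper21.TO
open CX.Pool.Agent.Helper51.EW (Wei)

section

variable {O : Type} [Field O]

/-- The Weierstrass equation over a larger field. -/
noncomputable def bcW (W : Wei O) (Ω : Type) [Field Ω] [Algebra O Ω] : Wei Ω where
  N := W.N
  A := MvPolynomial.map (algebraMap O Ω) W.A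
  B := MvPolynomial.map (algebraMap O Ω) W.B
  hA := W.hA.map _
  hB := W.hB.map _

variable {Ω L L' : Type} [Field Ω] [Algebra O Ω] [Field L] [Algebra O L] [Field L'] [Algebra Ω L']

theorem aeval_bc (F : MvPolynomial (Fin 2) O) (j : L →+* L')
    (hj : ∀ a : O, j (algebraMap O L a) = algebraMap Ω L' (algebraMap O Ω a)) (t : L) :
    MvPolynomial.aeval ![1, j t] (MvPolynomial.map (algebraMap O Ω) F) =
      j (MvPolynomial.aeval ![1, t] F) := by
  rw [MvPolynomial.aeval_def, MvPolynomial.aeval_def, MvPolynomial.eval₂_map,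
    MvPolynomial.hom_eval₂]
  congr 1
  · ext a
    exact (hj a).symm
  · funext l
    fin_cases l
    · simp
    · simp

theorem disc_bc {W : Wei O} (hΔ : 4 * W.A ^ 3 + 27 * W.B ^ 2 ≠ 0) :
    4 * (bcW W Ω).A ^ 3 + 27 * (bcW W Ω).B ^ 2 ≠ 0 := by
  have h := (map_ne_zero_iff (MvPolynomial.map (algebraMap O Ω))
    (MvPolynomial.map_injective _ (algebraMap O Ω).injective)).mpr hΔ
  rw [map_add, map_mul, map_mul, map_pow, map_pow, map_ofNat, map_ofNat] at h
  exact h

end

section dvd

variable {O : Type} [Field O] {Ω : Type} [Field Ω] [Algebra O Ω]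

open scoped TensorProduct

/-- Divisibility descends. -/
theorem dvd_of_map_dvd {p q : MvPolynomial (Fin 2) O}
    (h : MvPolynomial.map (algebraMap O Ω) p ∣ MvPolynomial.map (algebraMap O Ω) q) : p ∣ q := by
  obtain ⟨r, hr⟩ := h
  obtain ⟨ρ, hρ⟩ := (Algebra.linearMap O Ω).exists_leftInverse_of_injective
    (LinearMap.ker_eq_bot.mpr (algebraMap O Ω).injective)
  have hρ1 : ρ 1 = 1 := by
    have := LinearMap.congr_fun hρ 1
    simpa using this
  let e : Ω ⊗[O] MvPolynomial (Fin 2) O ≃ₐ[Ω] MvPolynomial (Fin 2) Ω :=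
    MvPolynomial.algebraTensorAlgEquiv O Ω
  have he : ∀ s : MvPolynomial (Fin 2) O, e.symm (MvPolynomial.map (algebraMap O Ω) s) = 1 ⊗ₜ s := by
    intro s
    rw [AlgEquiv.symm_apply_eq]
    simp [e]
  let R : Ω ⊗[O] MvPolynomial (Fin 2) O →ₗ[O] MvPolynomial (Fin 2) O :=
    (TensorProduct.lid O _).toLinearMap.comp (LinearMap.rTensor _ ρ)
  have hR : ∀ a s, R (a ⊗ₜ s) = ρ a • s := by
    intro a s
    simp [R]
  have hR2 : ∀ w, R (1 ⊗ₜ p * w) = p * R w := by
    intro w
    induction w using TensorProduct.induction_on with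
    | zero => simp
    | add x y hx hy => rw [mul_add, map_add, map_add, hx, hy, mul_add]
    | tmul a s =>
      rw [Algebra.TensorProduct.tmul_mul_tmul, one_mul, hR, hR, mul_smul_comm]
  refine ⟨R (e.symm r), ?_⟩
  have h1 := congrArg e.symm hr
  rw [map_mul, he, he] at h1
  have h2 := congrArg R h1
  rw [hR2, hR, hρ1, one_smul] at h2
  exact h2

theorem linear_form {l : MvPolynomial (Fin 2) Ω} (hl : l.IsHomogeneous 1) :
    l = MvPolynomial.C (l.coeff (Finsupp.single 0 1)) * MvPolynomial.X 0 +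
      MvPolynomial.C (l.coeff (Finsupp.single 1 1)) * MvPolynomial.X 1 := by
  ext m
  rw [MvPolynomial.coeff_add, MvPolynomial.coeff_C_mul, MvPolynomial.coeff_C_mul,
    MvPolynomial.coeff_X', MvPolynomial.coeff_X']
  have h01 : (Finsupp.single (0 : Fin 2) 1 : Fin 2 →₀ ℕ) ≠ Finsupp.single 1 1 := by
    intro h
    have := DFunLike.congr_fun h 0
    simp at this
  by_cases h0 : Finsupp.single 0 1 = m
  · subst h0
    rw [if_pos rfl, if_neg h01.symm]
    ring
  by_cases h1 : Finsupp.single 1 1 = m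
  · subst h1
    rw [if_neg h01, if_pos rfl]
    ring
  rw [if_neg h0, if_neg h1, mul_zero, mul_zero, add_zero]
  by_contra hcon
  have h2 : m 0 + m 1 = 1 := by
    have := hl hcon
    rw [Finsupp.weight_apply, Finsupp.sum_fintype _ _ (fun i => by simp)] at this
    simpa using this
  have h3 : m 0 = 1 ∧ m 1 = 0 ∨ m 0 = 0 ∧ m 1 = 1 := by omega
  rcases h3 with ⟨h3, h4⟩ | ⟨h3, h4⟩
  · apply h0
    ext i
    fin_cases i
    · simp [h3]
    · simp [h4]
  · apply h1
    ext i
    fin_cases i
    · simp [h3]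
    · simp [h4]

variable [IsAlgClosed O] [CX.Good O]

/-- A linear form over the larger field whose zero is a zero of a form over the smaller field is
proportional to a linear form over the smaller field. -/
theorem exists_linear {F : MvPolynomial (Fin 2) O} {n : ℕ} (hF : F.IsHomogeneous n) (h0 : F ≠ 0)
    {l : MvPolynomial (Fin 2) Ω} (hl : l.IsHomogeneous 1) (hl0 : l ≠ 0)
    (h : l ∣ MvPolynomial.map (algebraMap O Ω) F) :
    ∃ (l' : MvPolynomial (Fin 2) O) (c : Ω), c ≠ 0 ∧ l'.IsHomogeneous 1 ∧ l' ≠ 0 ∧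
      l = MvPolynomial.C c * MvPolynomial.map (algebraMap O Ω) l' := by
  have e := linear_form hl
  set α := l.coeff (Finsupp.single 0 1)
  set β := l.coeff (Finsupp.single 1 1)
  by_cases hβ : β = 0
  · refine ⟨MvPolynomial.X 0, α, ?_, MvPolynomial.isHomogeneous_X _ _, MvPolynomial.X_ne_zero _, ?_⟩
    · intro hα
      apply hl0
      rw [e, hα, hβ]
      simp
    · rw [e, hβ, MvPolynomial.map_X]
      simp
  · have h1 : ¬ Transcendental O (-α / β) := by
      intro ht
      apply form_ne_zero hF h0 ht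
      obtain ⟨r, hr⟩ := h
      have h2 : MvPolynomial.aeval ![1, -α / β] (MvPolynomial.map (algebraMap O Ω) F) = 0 := by
        rw [hr, map_mul, e]
        simp only [map_add, map_mul, MvPolynomial.aeval_X, MvPolynomial.algHom_C,
          Algebra.algebraMap_self, RingHom.id_apply, Matrix.cons_val_zero, Matrix.cons_val_one]
        field_simp
        ring
      rwa [MvPolynomial.aeval_def, MvPolynomial.eval₂_map, Algebra.algebraMap_self,
        RingHom.id_comp] at h2
    have h2 : IsAlgebraic O (-α / β) := by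
      rwa [Transcendental, not_not] at h1
    obtain ⟨s, hs⟩ := h2.isIntegral.mem_range_algebraMap_of_minpoly_splits
      (K := O) (IsAlgClosed.splits _)
    refine ⟨MvPolynomial.X 1 - MvPolynomial.C s * MvPolynomial.X 0, β, hβ, ?_, ?_, ?_⟩
    · exact (MvPolynomial.isHomogeneous_X _ _).sub (MvPolynomial.isHomogeneous_C_mul_X _ _)
    · intro h3
      have h4 := congrArg (MvPolynomial.aeval ![(0 : O), 1]) h3
      simp at h4
    · rw [map_sub, map_mul, MvPolynomial.map_X, MvPolynomial.map_X, MvPolynomial.map_C, hs]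
      conv_lhs => rw [e]
      have h5 : (MvPolynomial.C α : MvPolynomial (Fin 2) Ω) =
          -(MvPolynomial.C β * MvPolynomial.C (-α / β)) := by
        rw [← map_mul, ← map_neg]
        congr 1
        field_simp
      rw [h5]
      ring

theorem minimal_bc {W : Wei O} (hΔ : 4 * W.A ^ 3 + 27 * W.B ^ 2 ≠ 0) (hW : Minimal W) :
    Minimal (bcW W Ω) := by
  rintro l hl hl0 ⟨h1, h2⟩
  obtain ⟨F, n, hF, hF0, hF1⟩ : ∃ (F : MvPolynomial (Fin 2) O) (n : ℕ), F.IsHomogeneous n ∧
      F ≠ 0 ∧ l ∣ MvPolynomial.map (algebraMap O Ω) F := by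
    by_cases hA : W.A = 0
    · refine ⟨W.B, _, W.hB, ?_, (dvd_pow_self l (by norm_num)).trans h2⟩
      rintro hB
      apply hΔ
      rw [hA, hB]
      ring
    · exact ⟨W.A, _, W.hA, hA, (dvd_pow_self l (by norm_num)).trans h1⟩
  obtain ⟨l', c, hc, hl', hl0', rfl⟩ := exists_linear hF hF0 hl hl0 hF1
  have hd : MvPolynomial.map (algebraMap O Ω) l' ∣
      MvPolynomial.C c * MvPolynomial.map (algebraMap O Ω) l' := dvd_mul_left _ _
  refine hW l' hl' hl0' ⟨dvd_of_map_dvd (Ω := Ω) ?_, dvd_of_map_dvd (Ω := Ω) ?_⟩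
  · rw [map_pow]
    exact (pow_dvd_pow_of_dvd hd 4).trans h1
  · rw [map_pow]
    exact (pow_dvd_pow_of_dvd hd 6).trans h2

end dvd

section tors

variable {O Ω L E B : Type} [Field O] [Field Ω] [Field L] [Field E] [Field B] [Algebra O Ω]
  [Algebra O L] [Algebra O E] [Algebra L E] [IsScalarTower O L E] [Algebra Ω B] {i : E →+* B}
  {W : Wei O}

/-- The lifts of the elements of a group. -/
def liftG (Ω : Type) [Field Ω] [Algebra Ω B] (i : E →+* B) (G : Subgroup (E ≃ₐ[O] E)) :
    Subgroup (B ≃ₐ[Ω] B) where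
  carrier := {σ' | ∃ σ ∈ G, ∀ z, σ' (i z) = i (σ z)}
  mul_mem' := by
    rintro a b ⟨σ, hσ, h1⟩ ⟨τ, hτ, h2⟩
    refine ⟨σ * τ, mul_mem hσ hτ, fun z => ?_⟩
    change a (b (i z)) = i (σ (τ z))
    rw [h2, h1]
  one_mem' := ⟨1, one_mem _, fun z => rfl⟩
  inv_mem' := by
    rintro a ⟨σ, hσ, h1⟩
    refine ⟨σ⁻¹, inv_mem hσ, fun z => ?_⟩
    apply a.injective
    rw [h1]
    change a (a.symm (i z)) = i (σ (σ.symm z))
    rw [AlgEquiv.apply_symm_apply, AlgEquiv.apply_symm_apply]

theorem finite_liftG (hi : IsConst O Ω E B i) (G : Subgroup (E ≃ₐ[O] E)) (hG : Finite G) :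
    Finite (liftG Ω i G) := by
  classical
  choose f hf1 hf2 using fun a : liftG Ω i G => a.2
  refine Finite.of_injective (fun a => (⟨f a, hf1 a⟩ : G)) fun a b hab => ?_
  have h1 : f a = f b := congrArg Subtype.val hab
  apply Subtype.ext
  ext z
  have hz : z ∈ adjoin Ω (Set.range i) := by rw [hi.gen]; trivial
  induction hz using adjoin_induction with
  | mem x hx =>
    obtain ⟨x, rfl⟩ := hx
    rw [hf2 a, hf2 b, h1]
  | algebraMap c => rw [AlgEquiv.commutes, AlgEquiv.commutes]
  | add x y _ _ hx hy => rw [map_add, map_add, hx, hy]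
  | inv x _ hx => rw [map_inv₀, map_inv₀, hx]
  | mul x y _ _ hx hy => rw [map_mul, map_mul, hx, hy]

/-- The fibration over a larger field. -/
noncomputable def tors (T : Torsor W L E) (hi : IsConst O Ω E B i)
    (hl : ∀ σ : E ≃ₐ[O] E, ∃ σ' : B ≃ₐ[Ω] B, ∀ z, σ' (i z) = i (σ z)) :
    Torsor (bcW W Ω) (cs Ω i (algebraMap L E)) B where
  hL := (hi.sub (IsScalarTower.toAlgHom O L E)).functionField T.hL
  t := csm Ω i (algebraMap L E) T.t
  ht := (hi.sub (IsScalarTower.toAlgHom O L E)).transcendental T.ht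
  x := i T.x
  y := i T.y
  hx := by
    obtain ⟨H, hfin, hH1, hH2⟩ := exists_res_subgroup T.G T.finG T.stable
    refine hi.trans_sub T.ht T.hx (isAlgebraic_of_fixed T.t H fun z hz => T.fixed z fun σ hσ => ?_)
    obtain ⟨τ, hτ, h⟩ := hH2 σ hσ
    rw [h, hz τ hτ]
  eqn := by
    have hj : IsConst O Ω L (cs Ω i (algebraMap L E)) (csm Ω i (algebraMap L E)) :=
      hi.sub (IsScalarTower.toAlgHom O L E)
    have h1 : ∀ F : MvPolynomial (Fin 2) O,
        algebraMap (cs Ω i (algebraMap L E)) B (MvPolynomial.aeval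
          ![1, csm Ω i (algebraMap L E) T.t] (MvPolynomial.map (algebraMap O Ω) F)) =
        i (algebraMap L E (MvPolynomial.aeval ![1, T.t] F)) := by
      intro F
      rw [aeval_bc F (csm Ω i (algebraMap L E)) hj.comm]
      rfl
    change i T.y ^ 2 = i T.x ^ 3 + algebraMap (cs Ω i (algebraMap L E)) B (MvPolynomial.aeval
          ![1, csm Ω i (algebraMap L E) T.t] (MvPolynomial.map (algebraMap O Ω) W.A)) * i T.x +
      algebraMap (cs Ω i (algebraMap L E)) B (MvPolynomial.aeval
          ![1, csm Ω i (algebraMap L E) T.t] (MvPolynomial.map (algebraMap O Ω) W.B))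
    rw [h1, h1, ← map_pow, T.eqn]
    simp only [map_add, map_mul, map_pow]
  gen := by
    rw [eq_top_iff]
    have h1 : ∀ z : E, i z ∈ adjoin (cs Ω i (algebraMap L E)) {i T.x, i T.y} := by
      intro z
      have hz : z ∈ adjoin L {T.x, T.y} := by rw [T.gen]; trivial
      induction hz using adjoin_induction with
      | mem x hx =>
        rcases hx with rfl | hx
        · exact subset_adjoin _ _ (Set.mem_insert _ _)
        · rw [Set.mem_singleton_iff] at hx
          rw [hx]
          exact subset_adjoin _ _ (Set.mem_insert_of_mem _ rfl)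
      | algebraMap c =>
        exact IntermediateField.algebraMap_mem (adjoin (cs Ω i (algebraMap L E)) {i T.x, i T.y})
          (csm Ω i (algebraMap L E) c)
      | add x y _ _ hx hy => rw [map_add]; exact add_mem hx hy
      | inv x _ hx => rw [map_inv₀]; exact inv_mem hx
      | mul x y _ _ hx hy => rw [map_mul]; exact mul_mem hx hy
    have h2 : adjoin Ω (Set.range i) ≤
        (adjoin (cs Ω i (algebraMap L E)) {i T.x, i T.y}).restrictScalars Ω := by
      rw [adjoin_le_iff]
      rintro _ ⟨z, rfl⟩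
      exact h1 z
    intro z _
    exact h2 (by rw [hi.gen]; trivial)
  G := liftG Ω i T.G
  finG := finite_liftG hi T.G T.finG
  stable := by
    rintro σ' ⟨σ, hσ, h⟩ ⟨z, hz⟩
    change σ' z ∈ Set.range (algebraMap (cs Ω i (algebraMap L E)) B)
    suffices h2 : σ' z ∈ cs Ω i (algebraMap L E) from ⟨⟨_, h2⟩, rfl⟩
    change z ∈ adjoin Ω (Set.range (i.comp (algebraMap L E))) at hz
    induction hz using adjoin_induction with
    | mem x hx =>
      obtain ⟨x, rfl⟩ := hx
      obtain ⟨y, hy⟩ := T.stable σ hσ x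
      change σ' (i (algebraMap L E x)) ∈ _
      rw [h, ← hy]
      exact (csm Ω i (algebraMap L E) y).2
    | algebraMap c => rw [AlgEquiv.commutes]; exact IntermediateField.algebraMap_mem _ _
    | add x y _ _ hx hy => rw [map_add]; exact add_mem hx hy
    | inv x _ hx => rw [map_inv₀]; exact inv_mem hx
    | mul x y _ _ hx hy => rw [map_mul]; exact mul_mem hx hy
  fixt := by
    rintro σ' ⟨σ, hσ, h⟩
    change σ' (i (algebraMap L E T.t)) = i (algebraMap L E T.t)
    rw [h, T.fixt σ hσ]
  fixed := by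
    intro z hz
    obtain ⟨H, hfin, hH1, hH2⟩ := exists_res_subgroup T.G T.finG T.stable
    have hinj : Function.Injective (algebraMap L E) := (algebraMap L E).injective
    refine (hi.sub (IsScalarTower.toAlgHom O L E)).fixed (B := B) T.t H hfin (fun z hz => ?_)
      (fun τ hτ => ?_) z fun τ hτ => ?_
    · apply T.fixed
      intro σ hσ
      obtain ⟨τ, hτ, h⟩ := hH2 σ hσ
      rw [h, hz τ hτ]
    · obtain ⟨σ, hσ, h⟩ := hH1 τ hτ
      apply hinj
      rw [← h, T.fixt σ hσ]
    · obtain ⟨σ, hσ, h⟩ := hH1 τ hτ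
      obtain ⟨σ', h'⟩ := hl σ
      refine ⟨σ', fun y => ?_, hz σ' ⟨σ, hσ, h'⟩⟩
      change σ' (i (algebraMap L E y)) = i (algebraMap L E (τ y))
      rw [h', h]
  translation := by
    rintro σ' ⟨σ, hσ, h⟩
    have hj : IsConst O Ω L (cs Ω i (algebraMap L E)) (csm Ω i (algebraMap L E)) :=
      hi.sub (IsScalarTower.toAlgHom O L E)
    rcases T.translation σ hσ with ⟨h1, h2⟩ | ⟨e, f, h0, h1, h2⟩
    · left
      rw [h, h, h1, h2]
      exact ⟨rfl, rfl⟩
    · right
      refine ⟨csm Ω i (algebraMap L E) e, csm Ω i (algebraMap L E) f, ?_, ?_, ?_⟩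
      · change csm Ω i (algebraMap L E) f ^ 2 = csm Ω i (algebraMap L E) e ^ 3 +
          MvPolynomial.aeval ![1, csm Ω i (algebraMap L E) T.t]
            (MvPolynomial.map (algebraMap O Ω) W.A) * csm Ω i (algebraMap L E) e +
          MvPolynomial.aeval ![1, csm Ω i (algebraMap L E) T.t]
            (MvPolynomial.map (algebraMap O Ω) W.B)
        rw [aeval_bc _ (csm Ω i (algebraMap L E)) hj.comm,
          aeval_bc _ (csm Ω i (algebraMap L E)) hj.comm, ← map_pow, h0]
        simp only [map_add, map_mul, map_pow]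
      · rw [h, h1]
        simp only [map_sub, map_div₀, map_pow]
        rfl
      · rw [h, h, h2]
        simp only [map_sub, map_div₀, map_mul]
        rfl
  r := fun l => csm Ω i (algebraMap L E) (T.r l)
  hr := by
    have hj : IsConst O Ω L (cs Ω i (algebraMap L E)) (csm Ω i (algebraMap L E)) :=
      hi.sub (IsScalarTower.toAlgHom O L E)
    have h := congrArg (Polynomial.map (csm Ω i (algebraMap L E))) T.hr
    change Polynomial.X ^ 3 + Polynomial.C (MvPolynomial.aeval
        ![1, csm Ω i (algebraMap L E) T.t] (MvPolynomial.map (algebraMap O Ω) W.A)) *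
        Polynomial.X + Polynomial.C (MvPolynomial.aeval
        ![1, csm Ω i (algebraMap L E) T.t] (MvPolynomial.map (algebraMap O Ω) W.B)) =
      ∏ l, (Polynomial.X - Polynomial.C (csm Ω i (algebraMap L E) (T.r l)))
    rw [aeval_bc _ (csm Ω i (algebraMap L E)) hj.comm,
      aeval_bc _ (csm Ω i (algebraMap L E)) hj.comm]
    simp only [Polynomial.map_add, Polynomial.map_mul, Polynomial.map_pow, Polynomial.map_X,
      Polynomial.map_C, Polynomial.map_prod, Polynomial.map_sub] at h
    exact h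
  s := fun l => csm Ω i (algebraMap L E) (T.s l)
  hs := fun l => by rw [← map_pow, T.hs, map_sub]

end tors

end CX.BC
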