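import Mathlib
import Pool.Agent.Helper40.CX.BC.Tors
import Pool.Agent.Helper40.CX.H83KV.Final
import Pool.Agent.Helper40.CX.Sum2

/-!
# Extension of the field of constants: zero-cycles on surfaces with a genus one fibration over the
projective line and `χ = 2`
-/

set_option autoImplicit false

namespace CX.BC

open IntermediateField CX.VC CX.Pool.Agent.Helper21.TO
open CX.Pool.Agent.Helper51.EW (Wei)

section

variable {O Ω L E B M : Type} [Field O] [Field Ω] [Field L] [Field E] [Field B] [Field M]
  [Algebra O Ω] [Algebra O L] [Algebra O E] [Algebra L E] [IsScalarTower O L E] [Algebra Ω B]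
  [Algebra O M] {W : Wei O}

theorem van_val {F : IntermediateField Ω B} {N : ℕ} (ξ : Fin N → F) :
    van Ω ξ = van Ω (fun l => (ξ l : B)) := by
  ext P
  change MvPolynomial.aeval ξ P = 0 ↔ MvPolynomial.aeval (fun l => (ξ l : B)) P = 0
  have h : MvPolynomial.aeval (fun l => (ξ l : B)) P = algebraMap F B (MvPolynomial.aeval ξ P) :=
    MvPolynomial.aeval_algebraMap_apply B ξ P
  rw [h, map_eq_zero_iff _ (algebraMap F B).injective]

/-- Surfaces with a genus one fibration over the projective line whose Jacobian fibration is given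
by binary forms of degrees `8` and `12`: their zero-cycles of degree zero satisfy, over every
algebraically closed extension of the base field, the equation `a × b = b × a` modulo torsion. -/
theorem voisin_const [IsAlgClosed O] [Good O] (hN : W.N = 2)
    (hΔ : 4 * W.A ^ 3 + 27 * W.B ^ 2 ≠ 0) (hW : Minimal W) (T : Torsor W L E) (f : M →ₐ[O] E)
    (hf : ∀ z, ∀ σ ∈ T.G, σ (f z) = f z) (Ω : Type) [Field Ω] [Algebra O Ω] [IsAlgClosed Ω]
    [Good Ω] :
    ∃ (F : Type) (_ : Field F) (_ : Algebra Ω F) (i : M →+* F), IsConst O Ω M F i ∧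
      ∀ (N : ℕ) (ξ : Fin N → F), ξ ≠ 0 → ∀ a b : (proj Ω (van Ω ξ)).Cycles,
        (a.sum fun _ c => c) = 0 → (b.sum fun _ c => c) = 0 →
          ∃ m : ℕ, 0 < m ∧ m • (extProd ![a, b] - extProd ![b, a]) ∈
            ((proj Ω (van Ω ξ)).pow 2).Rat := by
  obtain ⟨B, _, _, i, hi, hl⟩ := exists_const O Ω E
  refine ⟨cs Ω i (f : M →+* E), inferInstance, inferInstance, csm Ω i (f : M →+* E), hi.sub f, ?_⟩
  intro N ξ hξ
  have hJ : Voisin (bcW W Ω).surface 2 := by
    obtain ⟨D⟩ := Pool.Agent.Helper83.KV.exists_core (bcW W Ω) hN (disc_bc hΔ)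
    exact Pool.Agent.Helper83.KV.voisin D le_rfl
  have key : Voisin (proj Ω (van Ω ξ)) 2 := by
    rw [van_val]
    refine voisin_torsor (disc_bc hΔ) (minimal_bc hΔ hW) (tors T hi hl) _ ?_ ?_ hJ
    · intro h0
      apply hξ
      funext l
      apply Subtype.ext
      exact congrFun h0 l
    · rintro σ' ⟨σ, hσ, h⟩ l
      obtain ⟨z, hz⟩ := ξ l
      change σ' z = z
      change z ∈ adjoin Ω (Set.range (i.comp (f : M →+* E))) at hz
      induction hz using adjoin_induction with
      | mem x hx =>
        obtain ⟨x, rfl⟩ := hx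
        change σ' (i (f x)) = i (f x)
        rw [h, hf x σ hσ]
      | algebraMap c => rw [AlgEquiv.commutes]
      | add x y _ _ hx hy => rw [map_add, hx, hy]
      | inv x _ hx => rw [map_inv₀, hx]
      | mul x y _ _ hx hy => rw [map_mul, hx, hy]
  intro a b ha hb
  have h := key ![a, b] (fun l => by
    fin_cases l
    · exact ha
    · exact hb)
  rwa [sum_perm_two] at h

open scoped IntermediateField.algebraAdjoinAdjoin

theorem trdeg_le (T : Torsor W L E) (f : M →ₐ[O] E) : Algebra.trdeg O M ≤ 2 := by
  have hinj : Function.Injective f := f.toRingHom.injective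
  refine (trdeg_le_of_injective f hinj).trans ?_
  have h1 : Algebra.trdeg O L = 1 := by
    have h1 : AlgebraicIndependent O fun _ : Unit => T.t :=
      algebraicIndependent_unique_type_iff.mpr T.ht
    have h2 : IsTranscendenceBasis O fun _ : Unit => T.t := by
      rw [h1.isTranscendenceBasis_iff_isAlgebraic, Set.range_const]
      refine ⟨fun z => ?_⟩
      obtain ⟨H, hfin, hH1, hH2⟩ := exists_res_subgroup T.G T.finG T.stable
      have h3 := isAlgebraic_of_fixed T.t H (fun z hz => T.fixed z fun σ hσ => by
        obtain ⟨τ, hτ, h⟩ := hH2 σ hσ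
        rw [h, hz τ hτ]) z
      exact (IsFractionRing.isAlgebraic_iff (Algebra.adjoin O {T.t}) (adjoin O {T.t}) L).mpr h3
    rw [← h2.cardinalMk_eq_trdeg]
    simp
  have h2 : Algebra.trdeg L E = 1 := by
    have h1 : AlgebraicIndependent L fun _ : Unit => T.x :=
      algebraicIndependent_unique_type_iff.mpr T.hx
    have h2 : IsTranscendenceBasis L fun _ : Unit => T.x := by
      rw [h1.isTranscendenceBasis_iff_isAlgebraic, Set.range_const]
      set A := Algebra.adjoin L {T.x}
      have hx : IsAlgebraic A T.x :=
        isAlgebraic_algebraMap (⟨T.x, Algebra.subset_adjoin rfl⟩ : A)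
      have hc : ∀ c : L, IsAlgebraic A (algebraMap L E c) := fun c =>
        isAlgebraic_algebraMap (algebraMap L A c)
      have hy : IsAlgebraic A T.y := by
        apply IsAlgebraic.of_pow (n := 2) (by norm_num)
        rw [T.eqn]
        exact ((hx.pow 3).add ((hc _).mul hx)).add (hc _)
      refine ⟨fun z => ?_⟩
      have hz : z ∈ adjoin L {T.x, T.y} := by rw [T.gen]; trivial
      induction hz using adjoin_induction with
      | mem z hz =>
        rcases hz with rfl | hz
        · exact hx
        · rw [Set.mem_singleton_iff] at hz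
          rw [hz]
          exact hy
      | algebraMap c => exact hc c
      | add x y _ _ hx hy => exact hx.add hy
      | inv x _ hx => exact IsAlgebraic.inv_iff.mpr hx
      | mul x y _ _ hx hy => exact hx.mul hy
    rw [← h2.cardinalMk_eq_trdeg]
    simp
  have h3 := trdeg_add_eq (R := O) (S := L) (A := E)
  rw [← h3, h1, h2, one_add_one_eq_two]

end

end CX.BC
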