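import Mathlib
import Pool.Agent.Helper40.CX.BC.Final
import Pool.Agent.Helper40.CX.H83VN.Wei

/-!
# Alternating products of zero-cycles on surfaces with a genus one fibration over the projective
line, after an extension of the field of constants

`voisin_const_n`: Voisin's property for `n ≥ W.N` zero-cycles on the projective models of the
quotients of the torsors of `W`, over all algebraically closed extensions of the base field, in
every characteristic different from `2`, `3` (`voisin_wei`, `voisin_torsor`).
-/

set_option autoImplicit false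

namespace CX.BC

open IntermediateField CX.VC CX.Pool.Agent.Helper21.TO
open CX.Pool.Agent.Helper51.EW (Wei)

section

variable {O Ω L E B M : Type} [Field O] [Field Ω] [Field L] [Field E] [Field B] [Field M]
  [Algebra O Ω] [Algebra O L] [Algebra O E] [Algebra L E] [IsScalarTower O L E] [Algebra Ω B]
  [Algebra O M] {W : Wei O}

theorem voisin_bc {n : ℕ} [IsAlgClosed Ω] [Good Ω] (hN : 1 ≤ W.N) (hn : W.N ≤ n)
    (hΔ : 4 * W.A ^ 3 + 27 * W.B ^ 2 ≠ 0) : Voisin (bcW W Ω).surface n := by
  have h1 : 1 ≤ (bcW W Ω).N := hN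
  have h2 : (bcW W Ω).N ≤ n := hn
  exact Pool.Agent.Helper83.VN.voisin_wei h1 h2 (disc_bc hΔ)

/-- Surfaces with a genus one fibration over the projective line whose Jacobian fibration is given
by binary forms of degrees `4 N` and `6 N` (minimal, `N ≥ 1`): for `n ≥ N`, the alternating sums of
the exterior products of `n` zero-cycles of degree zero are torsion modulo rational equivalence,
over every algebraically closed extension of the base field, on every projective model. -/
theorem voisin_const_n [IsAlgClosed O] [Good O] (hN : 1 ≤ W.N)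
    (hΔ : 4 * W.A ^ 3 + 27 * W.B ^ 2 ≠ 0) (hW : Minimal W) (T : Torsor W L E) (f : M →ₐ[O] E)
    (hf : ∀ z, ∀ σ ∈ T.G, σ (f z) = f z) {n : ℕ} (hn : W.N ≤ n) (Ω : Type) [Field Ω]
    [Algebra O Ω] [IsAlgClosed Ω] [Good Ω] :
    ∃ (F : Type) (_ : Field F) (_ : Algebra Ω F) (i : M →+* F), IsConst O Ω M F i ∧
      ∀ (N : ℕ) (ξ : Fin N → F), ξ ≠ 0 → Voisin (proj Ω (van Ω ξ)) n := by
  obtain ⟨B, _, _, i, hi, hl⟩ := exists_const O Ω E
  refine ⟨cs Ω i (f : M →+* E), inferInstance, inferInstance, csm Ω i (f : M →+* E), hi.sub f, ?_⟩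
  intro N ξ hξ
  have hJ : Voisin (bcW W Ω).surface n := voisin_bc hN hn hΔ
  rw [van_val]
  refine voisin_torsor (disc_bc hΔ) (minimal_bc hΔ hW) (tors T hi hl) _ ?_ ?_ hJ
  · intro h0
    apply hξ
    funext l
    apply Subtype.ext
    exact congrFun h0 l
  · rintro σ' ⟨σ, hσ, h⟩ l
    obtain ⟨z, hz⟩ := ξ l
    change σ' z = z
    change z ∈ adjoin Ω (Set.range (i.comp (f : M →+* E))) at hz
    induction hz using adjoin_induction with
    | mem x hx =>
      obtain ⟨x, rfl⟩ := hx
      change σ' (i (f x)) = i (f x)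
      rw [h, hf x σ hσ]
    | algebraMap c => rw [AlgEquiv.commutes]
    | add x y _ _ hx hy => rw [map_add, hx, hy]
    | inv x _ hx => rw [map_inv₀, hx]
    | mul x y _ _ hx hy => rw [map_mul, hx, hy]

end

end CX.BC
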