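import Mathlib
import Pool.Agent.Helper40.CX.BC.Ind

/-!
# Extension of the field of constants: finite extensions of fields of rational functions
-/

set_option autoImplicit false

namespace CX.BC

open IntermediateField

section

variable {O Ω E B : Type} [Field O] [Field Ω] [Field E] [Field B] [Algebra O Ω]
  [Algebra O E] [Algebra Ω B] {i : E →+* B}

/-- The homomorphism of the fields generated by `S` and by `i '' S`. -/
noncomputable def IsConst.adjS (hi : IsConst O Ω E B i) (S : Set E) :
    adjoin O S →+* adjoin Ω (i '' S) :=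
  (i.comp (algebraMap (adjoin O S) E)).codRestrict (adjoin Ω (i '' S)) (fun z => hi.adjoin_mem z.2)

theorem IsConst.isAlgebraicS (hi : IsConst O Ω E B i) {S : Set E} {z : E}
    (hz : IsAlgebraic (adjoin O S) z) : IsAlgebraic (adjoin Ω (i '' S)) (i z) :=
  hz.ringHom_of_comp_eq (hi.adjS S) i (hi.adjS S).injective rfl

theorem IsConst.span_topS (hi : IsConst O Ω E B i) (S : Set E)
    (ht : ∀ z : E, IsAlgebraic (adjoin O S) z) :
    Submodule.span (adjoin Ω (i '' S)) (Set.range i) = ⊤ := by
  have h1 : adjoin (adjoin Ω (i '' S)) (Set.range i) = ⊤ := by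
    rw [eq_top_iff]
    have h2 : adjoin Ω (Set.range i) ≤
        (adjoin (adjoin Ω (i '' S)) (Set.range i)).restrictScalars Ω := by
      rw [adjoin_le_iff]
      exact fun z hz => subset_adjoin _ _ hz
    intro z _
    exact h2 (by rw [hi.gen]; trivial)
  have h2 := adjoin_toSubalgebra_of_isAlgebraic (F := adjoin Ω (i '' S)) (S := Set.range i) (by
    rintro _ ⟨z, rfl⟩
    exact hi.isAlgebraicS (ht z))
  rw [h1, top_toSubalgebra] at h2
  have h3 := Algebra.adjoin_eq_span (R := adjoin Ω (i '' S)) (s := Set.range i)
  rw [← h2] at h3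
  have h4 : (Submonoid.closure (Set.range i) : Set B) = Set.range i := by
    have : Set.range i = ((MonoidHom.mrange (i : E →* B) : Submonoid B) : Set B) := rfl
    rw [this, Submonoid.closure_eq]
  rw [h4] at h3
  rw [← h3]
  rfl

theorem IsConst.span_basis (hi : IsConst O Ω E B i) (S : Set E) {J : Type} {b : J → E}
    (hb : Submodule.span (adjoin O S) (Set.range b) = ⊤) (ht : ∀ z : E, IsAlgebraic (adjoin O S) z) :
    Submodule.span (adjoin Ω (i '' S)) (Set.range fun j => i (b j)) = ⊤ := by
  rw [eq_top_iff, ← hi.span_topS S ht, Submodule.span_le]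
  rintro _ ⟨z, rfl⟩
  have hz : z ∈ Submodule.span (adjoin O S) (Set.range b) := by rw [hb]; trivial
  induction hz using Submodule.span_induction with
  | mem x hx =>
    obtain ⟨j, rfl⟩ := hx
    exact Submodule.subset_span ⟨j, rfl⟩
  | zero => rw [map_zero]; exact zero_mem _
  | add x y _ _ hx hy => rw [map_add]; exact add_mem hx hy
  | smul a x _ hx =>
    have e : i (a • x) = hi.adjS S a • i x := by
      rw [Algebra.smul_def, Algebra.smul_def, map_mul]
      rfl
    rw [e]
    exact Submodule.smul_mem _ _ hx

open scoped IntermediateField.algebraAdjoinAdjoin in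
theorem IsConst.linInd (hi : IsConst O Ω E B i) {ι : Type} {x : ι → E}
    (hx : AlgebraicIndependent O x) {J : Type} [Fintype J] {b : J → E}
    (hb : LinearIndependent (adjoin O (Set.range x)) b) :
    LinearIndependent (adjoin Ω (i '' Set.range x)) (fun j => i (b j)) := by
  classical
  have hS : i '' Set.range x = Set.range (fun j => i (x j)) := (Set.range_comp i x).symm
  rw [hS]
  obtain ⟨y, hy⟩ : ∃ y : ι → B, y = fun j => i (x j) := ⟨_, rfl⟩
  rw [← hy]
  -- independence over `O`
  have hmem : ∀ m, MvPolynomial.aeval x (MvPolynomial.monomial m (1 : O)) ∈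
      adjoin O (Set.range x) := by
    intro m
    have h1 : MvPolynomial.aeval x (MvPolynomial.monomial m (1 : O)) ∈
        Algebra.adjoin O (Set.range x) := by
      rw [Algebra.adjoin_range_eq_range_aeval]
      exact ⟨_, rfl⟩
    exact algebra_adjoin_le_adjoin O _ h1
  have h1 : LinearIndependent O fun m : ι →₀ ℕ =>
      (⟨MvPolynomial.aeval x (MvPolynomial.monomial m (1 : O)), hmem m⟩ :
        adjoin O (Set.range x)) := by
    have h := (MvPolynomial.basisMonomials ι O).linearIndependent.map'
      (MvPolynomial.aeval x : MvPolynomial ι O →ₐ[O] E).toLinearMap (by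
        rw [LinearMap.ker_eq_bot]
        exact algebraicIndependent_iff_injective_aeval.mp hx)
    exact LinearIndependent.of_comp (adjoin O (Set.range x)).val.toLinearMap h
  have h2 := linearIndependent_smul h1 hb
  have h3 := hi.disj _ _ h2
  have hyx : ∀ m, i (MvPolynomial.aeval x (MvPolynomial.monomial m (1 : O))) =
      MvPolynomial.aeval y (MvPolynomial.monomial m (1 : Ω)) := by
    intro m
    rw [MvPolynomial.aeval_monomial, MvPolynomial.aeval_monomial, map_one, map_one, one_mul,
      one_mul, Finsupp.prod, Finsupp.prod, map_prod, hy]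
    apply Finset.prod_congr rfl
    intro j _
    rw [map_pow]
  rw [← LinearIndependent.iff_fractionRing (Algebra.adjoin Ω (Set.range y))
    (adjoin Ω (Set.range y)), Fintype.linearIndependent_iff]
  intro g hg
  have hp : ∀ j, ∃ p : MvPolynomial ι Ω, MvPolynomial.aeval y p = (g j : B) := by
    intro j
    have h4 : ∀ z ∈ Algebra.adjoin Ω (Set.range y), ∃ p : MvPolynomial ι Ω,
        MvPolynomial.aeval y p = z := by
      intro z hz
      rw [Algebra.adjoin_range_eq_range_aeval] at hz
      exact hz
    exact h4 _ (g j).2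
  choose p hp using hp
  obtain ⟨U, hU⟩ : ∃ U : Finset (ι →₀ ℕ), U = Finset.univ.biUnion fun j => (p j).support :=
    ⟨_, rfl⟩
  have hpU : ∀ j, MvPolynomial.aeval y (p j) = ∑ m ∈ U, MvPolynomial.coeff m (p j) •
      MvPolynomial.aeval y (MvPolynomial.monomial m (1 : Ω)) := by
    intro j
    conv_lhs => rw [(p j).as_sum, map_sum]
    have h5 : (p j).support ⊆ U := by
      rw [hU]
      exact Finset.subset_biUnion_of_mem (fun j => (p j).support) (Finset.mem_univ j)
    rw [Finset.sum_subset h5 (fun m _ hm => by
      rw [MvPolynomial.notMem_support_iff.mp hm, MvPolynomial.monomial_zero, map_zero])]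
    refine Finset.sum_congr rfl fun m _ => ?_
    rw [← map_smul, MvPolynomial.smul_monomial, smul_eq_mul, mul_one]
  have h6 : ∑ q ∈ U ×ˢ Finset.univ, MvPolynomial.coeff q.1 (p q.2) •
      i ((⟨MvPolynomial.aeval x (MvPolynomial.monomial q.1 (1 : O)), hmem q.1⟩ :
        adjoin O (Set.range x)) • b q.2) = 0 := by
    rw [Finset.sum_product_right, ← hg]
    refine Finset.sum_congr rfl fun j _ => ?_
    rw [Algebra.smul_def]
    change _ = (g j : B) * i (b j)
    rw [← hp j, hpU j, Finset.sum_mul]
    refine Finset.sum_congr rfl fun m _ => ?_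
    rw [← hyx, smul_mul_assoc, ← map_mul]
    rfl
  have h7 := linearIndependent_iff'.mp h3 _ (fun q => MvPolynomial.coeff q.1 (p q.2)) h6
  intro j
  have h8 : p j = 0 := by
    ext m
    rw [MvPolynomial.coeff_zero]
    by_cases hm : m ∈ U
    · exact h7 (m, j) (Finset.mem_product.mpr ⟨hm, Finset.mem_univ j⟩)
    · rw [← MvPolynomial.notMem_support_iff]
      intro h9
      apply hm
      rw [hU]
      exact Finset.mem_biUnion.mpr ⟨j, Finset.mem_univ j, h9⟩
  apply Subtype.ext
  rw [← hp j, h8, map_zero]
  rfl

/-- The degree over the field of rational functions does not change. -/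
theorem IsConst.finrank_eq (hi : IsConst O Ω E B i) {ι : Type} {x : ι → E}
    (hx : AlgebraicIndependent O x) [FiniteDimensional (adjoin O (Set.range x)) E] :
    Module.finrank (adjoin Ω (i '' Set.range x)) B = Module.finrank (adjoin O (Set.range x)) E := by
  have b := Module.finBasis (adjoin O (Set.range x)) E
  have h1 := hi.linInd hx b.linearIndependent
  have h2 := hi.span_basis (Set.range x) b.span_eq
    fun z => (Algebra.IsAlgebraic.isAlgebraic z : IsAlgebraic (adjoin O (Set.range x)) z)
  rw [Module.finrank_eq_card_basis (Module.Basis.mk h1 h2.ge), Fintype.card_fin]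

end

end CX.BC
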