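import Mathlib
import Pool.Agent.Helper40.CX.BC.Fin
import Pool.Agent.Helper40.CX.BC.Sub
import Pool.Agent.Helper40.CX.H50KS.WeiDef

/-!
# The surfaces `z ^ 2 = a w + f`, `w ^ 2 = b z + g`: extension of the field of constants
-/

set_option autoImplicit false

namespace CX.BC

open IntermediateField
open CX.KSq

/-- `F` is the function field of the surface `z ^ 2 = a w + f`, `w ^ 2 = b z + g` with linear forms
`a` and `b` and cubic forms `f` and `g`, not all cubics of the pencil are singular, and they are not
all isomorphic; if `a = 0` (`b = 0`), then `f` (`g`) is not a form in `X 2` and one linear form. -/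
structure KData {O F : Type*} [Field O] [Field F] [Algebra O F] (a b f g : MvPolynomial (Fin 3) O)
    (s t z w : F) : Prop where
  ha : a.IsHomogeneous 1
  hb : b.IsHomogeneous 1
  hf : f.IsHomogeneous 3
  hg : g.IsHomogeneous 3
  hab : (a = 0 → Indep2 f) ∧ (b = 0 → Indep2 g)
  ind : AlgebraicIndependent O ![s, t]
  hz : z ^ 2 = MvPolynomial.aeval ![s, t, 1] a * w + MvPolynomial.aeval ![s, t, 1] f
  hw : w ^ 2 = MvPolynomial.aeval ![s, t, 1] b * z + MvPolynomial.aeval ![s, t, 1] g
  gen : adjoin O {s, t, z, w} = ⊤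
  deg : Module.finrank (adjoin O {s, t}) F = 4
  moduli : HasModuli a b f g

section

variable {O Ω : Type*} [Field O] [Field Ω] [Algebra O Ω]

theorem isWei_map {P : MvPolynomial (Fin 3) O} {a b : O} (h : IsWei P a b) :
    IsWei (MvPolynomial.map (algebraMap O Ω) P) (algebraMap O Ω a) (algebraMap O Ω b) := by
  obtain ⟨N, c, hN, hc, h⟩ := h
  refine ⟨N.map (algebraMap O Ω), algebraMap O Ω c, ?_, (_root_.map_ne_zero _).mpr hc, ?_⟩
  · have e : (N.map (algebraMap O Ω)).det = algebraMap O Ω N.det := by
      rw [RingHom.map_det]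
      rfl
    rw [e]
    exact (_root_.map_ne_zero _).mpr hN
  · have h1 := congrArg (MvPolynomial.map (algebraMap O Ω)) h
    rw [MvPolynomial.map_bind₁] at h1
    have e : (fun i => MvPolynomial.map (algebraMap O Ω)
        (∑ j, MvPolynomial.C (N i j) * MvPolynomial.X j)) =
        fun i => ∑ j, MvPolynomial.C (N.map (algebraMap O Ω) i j) * MvPolynomial.X j := by
      funext i
      rw [map_sum]
      refine Finset.sum_congr rfl fun j _ => ?_
      rw [map_mul, MvPolynomial.map_C, MvPolynomial.map_X, Matrix.map_apply]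
    rw [e] at h1
    rw [h1]
    simp only [map_mul, map_sub, map_pow, MvPolynomial.map_C, MvPolynomial.map_X]

theorem pencil_map (a b f g : MvPolynomial (Fin 3) O) (l : O) :
    MvPolynomial.map (algebraMap O Ω) (pencil a b f g l) =
      pencil (MvPolynomial.map (algebraMap O Ω) a) (MvPolynomial.map (algebraMap O Ω) b)
        (MvPolynomial.map (algebraMap O Ω) f) (MvPolynomial.map (algebraMap O Ω) g)
        (algebraMap O Ω l) := by
  unfold pencil
  simp only [map_mul, map_sub, map_add, map_pow, MvPolynomial.map_C, MvPolynomial.map_X,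
    map_ofNat]

theorem hasModuli_map {a b f g : MvPolynomial (Fin 3) O} (h : HasModuli a b f g) :
    HasModuli (MvPolynomial.map (algebraMap O Ω) a) (MvPolynomial.map (algebraMap O Ω) b)
      (MvPolynomial.map (algebraMap O Ω) f) (MvPolynomial.map (algebraMap O Ω) g) := by
  obtain ⟨l₁, l₂, a₁, b₁, a₂, b₂, h1, h2, h3, h4⟩ := h
  refine ⟨algebraMap O Ω l₁, algebraMap O Ω l₂, algebraMap O Ω a₁, algebraMap O Ω b₁,
    algebraMap O Ω a₂, algebraMap O Ω b₂, ?_, ?_, ?_, ?_⟩
  · rw [← pencil_map]
    exact isWei_map h1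
  · rw [← pencil_map]
    exact isWei_map h2
  · intro h0
    apply h3
    apply (algebraMap O Ω).injective
    rw [map_add, map_mul, map_mul, map_pow, map_pow, map_ofNat, map_ofNat, map_zero]
    exact h0
  · intro h0
    apply h4
    apply (algebraMap O Ω).injective
    rw [map_mul, map_mul, map_pow, map_pow, map_pow, map_pow]
    exact h0

theorem indep2_map {P : MvPolynomial (Fin 3) O} (h : Indep2 P) :
    Indep2 (MvPolynomial.map (algebraMap O Ω) P) := by
  intro α β h0
  by_contra hαβ
  have h1 : ∀ m, α * algebraMap O Ω ((MvPolynomial.pderiv 0 P).coeff m) +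
      β * algebraMap O Ω ((MvPolynomial.pderiv 1 P).coeff m) = 0 := by
    intro m
    have h2 := congrArg (MvPolynomial.coeff m) h0
    rw [MvPolynomial.pderiv_map, MvPolynomial.pderiv_map, MvPolynomial.coeff_add,
      MvPolynomial.coeff_C_mul, MvPolynomial.coeff_C_mul, MvPolynomial.coeff_map,
      MvPolynomial.coeff_map, MvPolynomial.coeff_zero] at h2
    exact h2
  have h2 : ∀ m, (MvPolynomial.pderiv 0 P).coeff m = 0 ∧ (MvPolynomial.pderiv 1 P).coeff m = 0 := by
    intro m
    have h3 : MvPolynomial.C (-(MvPolynomial.pderiv 1 P).coeff m) * MvPolynomial.pderiv 0 P +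
        MvPolynomial.C ((MvPolynomial.pderiv 0 P).coeff m) * MvPolynomial.pderiv 1 P = 0 := by
      ext m'
      rw [MvPolynomial.coeff_add, MvPolynomial.coeff_C_mul, MvPolynomial.coeff_C_mul,
        MvPolynomial.coeff_zero]
      apply (algebraMap O Ω).injective
      rw [map_add, map_mul, map_mul, map_neg, map_zero]
      have h4 := h1 m
      have h5 := h1 m'
      by_contra h6
      apply hαβ
      constructor
      · apply mul_left_cancel₀ h6
        linear_combination algebraMap O Ω ((MvPolynomial.pderiv 1 P).coeff m') * h4 -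
          algebraMap O Ω ((MvPolynomial.pderiv 1 P).coeff m) * h5
      · apply mul_left_cancel₀ h6
        linear_combination -algebraMap O Ω ((MvPolynomial.pderiv 0 P).coeff m') * h4 +
          algebraMap O Ω ((MvPolynomial.pderiv 0 P).coeff m) * h5
    obtain ⟨e1, e2⟩ := h _ _ h3
    exact ⟨e2, neg_eq_zero.mp e1⟩
  have h3 : MvPolynomial.C 1 * MvPolynomial.pderiv 0 P + MvPolynomial.C 0 * MvPolynomial.pderiv 1 P = 0 := by
    ext m
    rw [MvPolynomial.coeff_add, MvPolynomial.coeff_C_mul, MvPolynomial.coeff_C_mul, (h2 m).1]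
    simp
  exact one_ne_zero (h _ _ h3).1

end

section

variable {O Ω E B : Type} [Field O] [Field Ω] [Field E] [Field B] [Algebra O Ω]
  [Algebra O E] [Algebra Ω B] {i : E →+* B}

theorem IsConst.aeval_map (hi : IsConst O Ω E B i) {ι : Type} (x : ι → E)
    (P : MvPolynomial ι O) :
    MvPolynomial.aeval (fun j => i (x j)) (MvPolynomial.map (algebraMap O Ω) P) =
      i (MvPolynomial.aeval x P) := by
  induction P using MvPolynomial.induction_on with
  | C a => rw [MvPolynomial.map_C, MvPolynomial.algHom_C, MvPolynomial.algHom_C, hi.comm]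
  | add p q hp hq => rw [map_add, map_add, hp, hq, map_add, map_add]
  | mul_X p j hp =>
    rw [map_mul, map_mul, hp, MvPolynomial.map_X, MvPolynomial.aeval_X, map_mul,
      MvPolynomial.aeval_X, map_mul]

theorem KData.bc {a b f g : MvPolynomial (Fin 3) O} {s t z w : E} (h : KData a b f g s t z w)
    (hi : IsConst O Ω E B i) :
    KData (MvPolynomial.map (algebraMap O Ω) a) (MvPolynomial.map (algebraMap O Ω) b)
      (MvPolynomial.map (algebraMap O Ω) f) (MvPolynomial.map (algebraMap O Ω) g)
      (i s) (i t) (i z) (i w) := by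
  have hinj : Function.Injective (MvPolynomial.map (σ := Fin 3) (algebraMap O Ω)) :=
    MvPolynomial.map_injective _ (algebraMap O Ω).injective
  have e2 : (fun j => i ((![s, t] : Fin 2 → E) j)) = ![i s, i t] := by
    funext j
    fin_cases j <;> rfl
  have e3 : (fun j => i ((![s, t, 1] : Fin 3 → E) j)) = ![i s, i t, 1] := by
    funext j
    fin_cases j
    · rfl
    · rfl
    · exact map_one i
  have hP : ∀ P : MvPolynomial (Fin 3) O,
      MvPolynomial.aeval ![i s, i t, 1] (MvPolynomial.map (algebraMap O Ω) P) =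
        i (MvPolynomial.aeval ![s, t, 1] P) := by
    intro P
    rw [← hi.aeval_map, e3]
  have hr : ({s, t} : Set E) = Set.range ![s, t] := by
    rw [Matrix.range_cons, Matrix.range_cons, Matrix.range_empty, Set.union_empty,
      Set.singleton_union]
  refine ⟨h.ha.map _, h.hb.map _, h.hf.map _, h.hg.map _, ⟨?_, ?_⟩, ?_, ?_, ?_, ?_, ?_,
    hasModuli_map h.moduli⟩
  · intro h0
    exact indep2_map (h.hab.1 (hinj (by rw [h0, map_zero])))
  · intro h0
    exact indep2_map (h.hab.2 (hinj (by rw [h0, map_zero])))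
  · have h1 := hi.algInd h.ind
    rwa [e2] at h1
  · rw [hP, hP, ← map_mul, ← map_add, ← map_pow, h.hz]
  · rw [hP, hP, ← map_mul, ← map_add, ← map_pow, h.hw]
  · rw [eq_top_iff, ← hi.gen, adjoin_le_iff]
    rintro _ ⟨y, rfl⟩
    have h1 := hi.adjoin_mem (S := {s, t, z, w}) (z := y) (by rw [h.gen]; trivial)
    have e : i '' {s, t, z, w} = {i s, i t, i z, i w} := by
      rw [Set.image_insert_eq, Set.image_insert_eq, Set.image_insert_eq, Set.image_singleton]
    rwa [e] at h1
  · have h1 := h.deg
    rw [hr] at h1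
    have hfd : FiniteDimensional (adjoin O (Set.range ![s, t])) E :=
      FiniteDimensional.of_finrank_pos (by rw [h1]; norm_num)
    have h2 := hi.finrank_eq h.ind
    rw [h1, ← hr, Set.image_insert_eq, Set.image_singleton] at h2
    exact h2

end

end CX.BC
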