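import Mathlib
import Pool.Agent.Helper40.CX.BC.KSq
import Pool.Agent.Helper40.CX.BC.Final
import Pool.Agent.Helper40.CX.H15GT.Defs

/-!
# The surfaces `z ^ 2 = a w + f`, `w ^ 2 = b z + g`: zero-cycles over all extensions of the field of
constants
-/

set_option autoImplicit false

namespace CX.BC

open IntermediateField CX.VC CX.Pool.Agent.Helper21.TO
open CX.Pool.Agent.Helper15.GT (VP)

section

variable {O Ω E B M : Type} [Field O] [Field Ω] [Field E] [Field B] [Field M]
  [Algebra O Ω] [Algebra O E] [Algebra Ω B] [Algebra O M]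

/-- Extension of the constants for Voisin's property. -/
theorem voisin_vp [IsAlgClosed O] (f : M →ₐ[O] E) (Ω : Type) [Field Ω] [Algebra O Ω]
    [IsAlgClosed Ω] [Good Ω]
    (H : ∀ (B : Type) [Field B] [Algebra Ω B] (i : E →+* B), IsConst O Ω E B i → VP Ω B 1) :
    ∃ (F : Type) (_ : Field F) (_ : Algebra Ω F) (i : M →+* F), IsConst O Ω M F i ∧
      ∀ (N : ℕ) (ξ : Fin N → F), ξ ≠ 0 → ∀ a b : (proj Ω (van Ω ξ)).Cycles,
        (a.sum fun _ c => c) = 0 → (b.sum fun _ c => c) = 0 →
          ∃ m : ℕ, 0 < m ∧ m • (extProd ![a, b] - extProd ![b, a]) ∈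
            ((proj Ω (van Ω ξ)).pow 2).Rat := by
  obtain ⟨B, _, _, i, hi, -⟩ := exists_const O Ω E
  refine ⟨cs Ω i (f : M →+* E), inferInstance, inferInstance, csm Ω i (f : M →+* E), hi.sub f, ?_⟩
  intro N ξ hξ
  have key : Voisin (proj Ω (van Ω ξ)) 2 := by
    rw [van_val]
    refine H B i hi N _ ?_ 2 (by norm_num)
    intro h0
    apply hξ
    funext l
    apply Subtype.ext
    exact congrFun h0 l
  intro a b ha hb
  have h := key ![a, b] (fun l => by
    fin_cases l
    · exact ha
    · exact hb)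
  rwa [sum_perm_two] at h

/-- Zero-cycles on the surfaces with the function field `E`. -/
theorem voisin_ksq [IsAlgClosed O] {a b f g : MvPolynomial (Fin 3) O} {s t z w : E}
    (h : KData a b f g s t z w) (e : M →ₐ[O] E) (Ω : Type) [Field Ω] [Algebra O Ω]
    [IsAlgClosed Ω] [Good Ω]
    (H : ∀ (B : Type) [Field B] [Algebra Ω B] (a b f g : MvPolynomial (Fin 3) Ω) (s t z w : B),
      KData a b f g s t z w → VP Ω B 1) :
    ∃ (F : Type) (_ : Field F) (_ : Algebra Ω F) (i : M →+* F), IsConst O Ω M F i ∧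
      ∀ (N : ℕ) (ξ : Fin N → F), ξ ≠ 0 → ∀ a b : (proj Ω (van Ω ξ)).Cycles,
        (a.sum fun _ c => c) = 0 → (b.sum fun _ c => c) = 0 →
          ∃ m : ℕ, 0 < m ∧ m • (extProd ![a, b] - extProd ![b, a]) ∈
            ((proj Ω (van Ω ξ)).pow 2).Rat :=
  voisin_vp e Ω fun B _ _ _ hi => H B _ _ _ _ _ _ _ _ (h.bc hi)

/-- The transcendence degree. -/
theorem trdeg_ksq {a b f g : MvPolynomial (Fin 3) O} {s t z w : E}
    (h : KData a b f g s t z w) (e : M →ₐ[O] E) : Algebra.trdeg O M ≤ 2 := by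
  refine (trdeg_le_of_injective e e.toRingHom.injective).trans ?_
  have h1 : IsTranscendenceBasis O ![s, t] := by
    rw [h.ind.isTranscendenceBasis_iff_isAlgebraic]
    have hr : ({s, t} : Set E) = Set.range ![s, t] := by
      rw [Matrix.range_cons, Matrix.range_cons, Matrix.range_empty, Set.union_empty,
        Set.singleton_union]
    have hfd : FiniteDimensional (adjoin O {s, t}) E :=
      FiniteDimensional.of_finrank_pos (by rw [h.deg]; norm_num)
    rw [← hr]
    refine ⟨fun x => ?_⟩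
    exact isAlgebraic_adjoin_iff.mp (Algebra.IsAlgebraic.isAlgebraic (R := adjoin O {s, t}) x)
  rw [← h1.cardinalMk_eq_trdeg]
  simp

end

end CX.BC
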