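import Mathlib
import Pool.Agent.Helper40.CX.BC.KSq
import Pool.Agent.Helper40.CX.H50KS.WeiDef2

/-!
# The surfaces `t z ^ 2 = t a w + f`, `t w ^ 2 = t b z + g`: extension of the field of constants
-/

set_option autoImplicit false

namespace CX.BC

open IntermediateField Polynomial
open CX.KSq

/-- `F` is the function field of the surface `t z ^ 2 = t a w + f`, `t w ^ 2 = t b z + g` with
polynomials `a (s)` and `b (s)` of degree at most one, `f = f0 t ^ 2 + f2 (s) t + f4 (s)`,
`g = g0 t ^ 2 + g2 (s) t + g4 (s)`, not all the curves `y ^ 2 = disc l` are singular, and they are not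
all isomorphic; if `a = 0` (`b = 0`), then `f` (`g`) is not a form in `t` and one linear form. -/
structure KData2 {O F : Type*} [Field O] [Field F] [Algebra O F] (a b f2 g2 f4 g4 : O[X])
    (f0 g0 : O) (s t z w : F) : Prop where
  ha : a.natDegree ≤ 1
  hb : b.natDegree ≤ 1
  hf2 : f2.natDegree ≤ 2
  hg2 : g2.natDegree ≤ 2
  hf4 : f4.natDegree ≤ 4
  hg4 : g4.natDegree ≤ 4
  hab : (a = 0 → IndepS f2 f4) ∧ (b = 0 → IndepS g2 g4)
  ind : AlgebraicIndependent O ![s, t]
  hz : t * z ^ 2 = t * aeval s a * w + (algebraMap O F f0 * t ^ 2 + aeval s f2 * t + aeval s f4)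
  hw : t * w ^ 2 = t * aeval s b * z + (algebraMap O F g0 * t ^ 2 + aeval s g2 * t + aeval s g4)
  gen : adjoin O {s, t, z, w} = ⊤
  deg : Module.finrank (adjoin O {s, t}) F = 4
  moduli : HasModuli2 a b f2 g2 f4 g4 f0 g0

section

variable {O Ω : Type*} [Field O] [Field Ω] [Algebra O Ω]

theorem disc_map (a b f2 g2 f4 g4 : O[X]) (f0 g0 l : O) :
    (disc a b f2 g2 f4 g4 f0 g0 l).map (algebraMap O Ω) =
      disc (a.map (algebraMap O Ω)) (b.map (algebraMap O Ω)) (f2.map (algebraMap O Ω))
        (g2.map (algebraMap O Ω)) (f4.map (algebraMap O Ω)) (g4.map (algebraMap O Ω))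
        (algebraMap O Ω f0) (algebraMap O Ω g0) (algebraMap O Ω l) := by
  unfold disc
  simp only [Polynomial.map_mul, Polynomial.map_sub, Polynomial.map_add, Polynomial.map_pow,
    Polynomial.map_C, map_mul, map_sub, map_pow, map_ofNat, Polynomial.map_ofNat]

theorem inv2_map (q : O[X]) : inv2 (q.map (algebraMap O Ω)) = algebraMap O Ω (inv2 q) := by
  unfold inv2
  simp only [Polynomial.coeff_map, map_add, map_sub, map_mul, map_pow, map_ofNat]

theorem inv3_map (q : O[X]) : inv3 (q.map (algebraMap O Ω)) = algebraMap O Ω (inv3 q) := by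
  unfold inv3
  simp only [Polynomial.coeff_map, map_add, map_sub, map_mul, map_pow, map_ofNat]

theorem hasModuli2_map {a b f2 g2 f4 g4 : O[X]} {f0 g0 : O}
    (h : HasModuli2 a b f2 g2 f4 g4 f0 g0) :
    HasModuli2 (a.map (algebraMap O Ω)) (b.map (algebraMap O Ω)) (f2.map (algebraMap O Ω))
        (g2.map (algebraMap O Ω)) (f4.map (algebraMap O Ω)) (g4.map (algebraMap O Ω))
        (algebraMap O Ω f0) (algebraMap O Ω g0) := by
  obtain ⟨l₁, l₂, h1, h2⟩ := h
  refine ⟨algebraMap O Ω l₁, algebraMap O Ω l₂, ?_, ?_⟩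
  · rw [← disc_map, inv2_map, inv3_map]
    intro h0
    apply h1
    apply (algebraMap O Ω).injective
    rw [map_mul, map_pow, map_pow, map_ofNat]
    exact h0
  · rw [← disc_map, ← disc_map, inv2_map, inv3_map, inv2_map, inv3_map]
    intro h0
    apply h2
    apply (algebraMap O Ω).injective
    rw [map_mul, map_mul, map_pow, map_pow, map_pow, map_pow]
    exact h0

/-- Two linear relations over `Ω` with coefficients in `O`. -/
theorem rel_zero {α β : Ω} {u v u' v' : O} (hαβ : ¬ (α = 0 ∧ β = 0))
    (h : α * algebraMap O Ω u + β * algebraMap O Ω v = 0)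
    (h' : α * algebraMap O Ω u' + β * algebraMap O Ω v' = 0) : -v * u' + u * v' = 0 := by
  apply (algebraMap O Ω).injective
  rw [map_add, map_mul, map_mul, map_neg, map_zero]
  by_contra h6
  apply hαβ
  constructor
  · apply mul_left_cancel₀ h6
    linear_combination algebraMap O Ω v' * h - algebraMap O Ω v * h'
  · apply mul_left_cancel₀ h6
    linear_combination -algebraMap O Ω u' * h + algebraMap O Ω u * h'

theorem indepS_map {f2 f4 : O[X]} (h : IndepS f2 f4) :
    IndepS (f2.map (algebraMap O Ω)) (f4.map (algebraMap O Ω)) := by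
  intro α β h2 h4
  by_contra hαβ
  have e2 : ∀ (n : O) (f : O[X]), (C α - C β * X) * derivative (f.map (algebraMap O Ω)) +
      C (algebraMap O Ω n * β) * f.map (algebraMap O Ω) =
      C α * (derivative f).map (algebraMap O Ω) +
        C β * (C n * f - X * derivative f).map (algebraMap O Ω) := by
    intro n f
    rw [derivative_map, C_mul, Polynomial.map_sub, Polynomial.map_mul, Polynomial.map_mul, map_C,
      map_X]
    ring
  have e4 : ∀ (n α β : O) (f : O[X]), (C α - C β * X) * derivative f + C (n * β) * f =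
      C α * derivative f + C β * (C n * f - X * derivative f) := by
    intro n α β f
    rw [C_mul]
    ring
  have t2 : (2 : Ω) = algebraMap O Ω 2 := (map_ofNat _ 2).symm
  have t4 : (4 : Ω) = algebraMap O Ω 4 := (map_ofNat _ 4).symm
  rw [t2, e2] at h2
  rw [t4, e2] at h4
  have c2 : ∀ m, α * algebraMap O Ω ((derivative f2).coeff m) +
      β * algebraMap O Ω ((C 2 * f2 - X * derivative f2).coeff m) = 0 := by
    intro m
    have h5 := congrArg (fun p => coeff p m) h2
    simp only [coeff_add, coeff_C_mul, Polynomial.coeff_map, coeff_zero] at h5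
    exact h5
  have c4 : ∀ m, α * algebraMap O Ω ((derivative f4).coeff m) +
      β * algebraMap O Ω ((C 4 * f4 - X * derivative f4).coeff m) = 0 := by
    intro m
    have h5 := congrArg (fun p => coeff p m) h4
    simp only [coeff_add, coeff_C_mul, Polynomial.coeff_map, coeff_zero] at h5
    exact h5
  have key : ∀ u v : O, α * algebraMap O Ω u + β * algebraMap O Ω v = 0 → u = 0 ∧ v = 0 := by
    intro u v huv
    obtain ⟨h5, h6⟩ := h (-v) u (by
      rw [e4]
      ext m
      rw [coeff_add, coeff_C_mul, coeff_C_mul, coeff_zero]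
      exact rel_zero hαβ huv (c2 m)) (by
      rw [e4]
      ext m
      rw [coeff_add, coeff_C_mul, coeff_C_mul, coeff_zero]
      exact rel_zero hαβ huv (c4 m))
    exact ⟨h6, neg_eq_zero.mp h5⟩
  have d2 : derivative f2 = 0 := by
    ext m
    rw [coeff_zero]
    exact (key _ _ (c2 m)).1
  have d4 : derivative f4 = 0 := by
    ext m
    rw [coeff_zero]
    exact (key _ _ (c4 m)).1
  exact one_ne_zero (h 1 0 (by rw [d2]; simp) (by rw [d4]; simp)).1

end

section

variable {O Ω E B : Type} [Field O] [Field Ω] [Field E] [Field B] [Algebra O Ω]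
  [Algebra O E] [Algebra Ω B] {i : E →+* B}

theorem IsConst.aeval_map1 (hi : IsConst O Ω E B i) (x : E) (P : O[X]) :
    aeval (i x) (P.map (algebraMap O Ω)) = i (aeval x P) := by
  induction P using Polynomial.induction_on' with
  | add p q hp hq => rw [Polynomial.map_add, map_add, hp, hq, map_add, map_add]
  | monomial n a =>
    rw [Polynomial.map_monomial, aeval_monomial, aeval_monomial, map_mul, map_pow, hi.comm]

theorem KData2.bc {a b f2 g2 f4 g4 : O[X]} {f0 g0 : O} {s t z w : E}
    (h : KData2 a b f2 g2 f4 g4 f0 g0 s t z w) (hi : IsConst O Ω E B i) :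
    KData2 (a.map (algebraMap O Ω)) (b.map (algebraMap O Ω)) (f2.map (algebraMap O Ω))
      (g2.map (algebraMap O Ω)) (f4.map (algebraMap O Ω)) (g4.map (algebraMap O Ω))
      (algebraMap O Ω f0) (algebraMap O Ω g0) (i s) (i t) (i z) (i w) := by
  have hinj : Function.Injective (Polynomial.map (algebraMap O Ω)) :=
    Polynomial.map_injective _ (algebraMap O Ω).injective
  have e2 : (fun j => i ((![s, t] : Fin 2 → E) j)) = ![i s, i t] := by
    funext j
    fin_cases j <;> rfl
  have hr : ({s, t} : Set E) = Set.range ![s, t] := by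
    rw [Matrix.range_cons, Matrix.range_cons, Matrix.range_empty, Set.union_empty,
      Set.singleton_union]
  refine ⟨natDegree_map_le.trans h.ha, natDegree_map_le.trans h.hb, natDegree_map_le.trans h.hf2,
    natDegree_map_le.trans h.hg2, natDegree_map_le.trans h.hf4, natDegree_map_le.trans h.hg4,
    ⟨?_, ?_⟩, ?_, ?_, ?_, ?_, ?_, hasModuli2_map h.moduli⟩
  · intro h0
    exact indepS_map (h.hab.1 (hinj (by rw [h0, Polynomial.map_zero])))
  · intro h0
    exact indepS_map (h.hab.2 (hinj (by rw [h0, Polynomial.map_zero])))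
  · have h1 := hi.algInd h.ind
    rwa [e2] at h1
  · have h1 := congrArg i h.hz
    simp only [map_mul, map_add, map_pow] at h1
    rw [hi.aeval_map1, hi.aeval_map1, hi.aeval_map1, ← hi.comm]
    exact h1
  · have h1 := congrArg i h.hw
    simp only [map_mul, map_add, map_pow] at h1
    rw [hi.aeval_map1, hi.aeval_map1, hi.aeval_map1, ← hi.comm]
    exact h1
  · rw [eq_top_iff, ← hi.gen, adjoin_le_iff]
    rintro _ ⟨y, rfl⟩
    have h1 := hi.adjoin_mem (S := {s, t, z, w}) (z := y) (by rw [h.gen]; trivial)
    have e : i '' {s, t, z, w} = {i s, i t, i z, i w} := by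
      rw [Set.image_insert_eq, Set.image_insert_eq, Set.image_insert_eq, Set.image_singleton]
    rwa [e] at h1
  · have h1 := h.deg
    rw [hr] at h1
    have hfd : FiniteDimensional (adjoin O (Set.range ![s, t])) E :=
      FiniteDimensional.of_finrank_pos (by rw [h1]; norm_num)
    have h2 := hi.finrank_eq h.ind
    rw [h1, ← hr, Set.image_insert_eq, Set.image_singleton] at h2
    exact h2

end

end CX.BC
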