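import Mathlib
import Pool.Agent.Helper40.CX.BC.KSq2
import Pool.Agent.Helper40.CX.BC.KFinal

/-!
# The surfaces `t z ^ 2 = t a w + f`, `t w ^ 2 = t b z + g`: zero-cycles over all extensions of the
field of constants
-/

set_option autoImplicit false

namespace CX.BC

open IntermediateField CX.VC CX.Pool.Agent.Helper21.TO
open CX.Pool.Agent.Helper15.GT (VP)

variable {O E M : Type} [Field O] [Field E] [Field M] [Algebra O E] [Algebra O M]

/-- Zero-cycles on the surfaces with the function field `E`. -/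
theorem voisin_ksq2 [IsAlgClosed O] {a b f2 g2 f4 g4 : Polynomial O} {f0 g0 : O} {s t z w : E}
    (h : KData2 a b f2 g2 f4 g4 f0 g0 s t z w) (e : M →ₐ[O] E) (Ω : Type) [Field Ω] [Algebra O Ω]
    [IsAlgClosed Ω] [Good Ω]
    (H : ∀ (B : Type) [Field B] [Algebra Ω B] (a b f2 g2 f4 g4 : Polynomial Ω) (f0 g0 : Ω)
      (s t z w : B), KData2 a b f2 g2 f4 g4 f0 g0 s t z w → VP Ω B 1) :
    ∃ (F : Type) (_ : Field F) (_ : Algebra Ω F) (i : M →+* F), IsConst O Ω M F i ∧
      ∀ (N : ℕ) (ξ : Fin N → F), ξ ≠ 0 → ∀ a b : (proj Ω (van Ω ξ)).Cycles,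
        (a.sum fun _ c => c) = 0 → (b.sum fun _ c => c) = 0 →
          ∃ m : ℕ, 0 < m ∧ m • (extProd ![a, b] - extProd ![b, a]) ∈
            ((proj Ω (van Ω ξ)).pow 2).Rat :=
  voisin_vp e Ω fun B _ _ _ hi => H B _ _ _ _ _ _ _ _ _ _ _ _ (h.bc hi)

/-- The transcendence degree. -/
theorem trdeg_ksq2 {a b f2 g2 f4 g4 : Polynomial O} {f0 g0 : O} {s t z w : E}
    (h : KData2 a b f2 g2 f4 g4 f0 g0 s t z w) (e : M →ₐ[O] E) : Algebra.trdeg O M ≤ 2 := by
  refine (trdeg_le_of_injective e e.toRingHom.injective).trans ?_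
  have h1 : IsTranscendenceBasis O ![s, t] := by
    rw [h.ind.isTranscendenceBasis_iff_isAlgebraic]
    have hr : ({s, t} : Set E) = Set.range ![s, t] := by
      rw [Matrix.range_cons, Matrix.range_cons, Matrix.range_empty, Set.union_empty,
        Set.singleton_union]
    have hfd : FiniteDimensional (adjoin O {s, t}) E :=
      FiniteDimensional.of_finrank_pos (by rw [h.deg]; norm_num)
    rw [← hr]
    refine ⟨fun x => ?_⟩
    exact isAlgebraic_adjoin_iff.mp (Algebra.IsAlgebraic.isAlgebraic (R := adjoin O {s, t}) x)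
  rw [← h1.cardinalMk_eq_trdeg]
  simp

end CX.BC
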